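import Pool.Agent.H64.POT.Wld

/-!
# BODY

`body_stmt`: the statement of `H64/POT/Ok.lean`.
-/

set_option autoImplicit false
set_option linter.unusedSectionVars false
set_option linter.unusedVariables false

namespace Pool.QT64

open Finset Real Matrix
open Pool.Agent.H49.Ent Pool.Agent.H32.Dense Pool.STK Pool.KS6 Pool.SLO Pool.QB32
open Pool.FAD Pool.POT
open Pool.QC (QD mat)

variable {c k : ℕ}

/-! ### Forms of the hypotheses -/

theorem OkN_Ok0 {H : QH c k} {X : ℕ} {C d : ℝ} (h : H.OkN X C d) (n₀ : Fin c) :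
    H.Ok0 n₀ X 0 C 0 d :=
  { law := h.law
    tau_r := h.tau_r
    y_r := h.y_r
    E_b := h.E_b
    be_b := h.be_b
    hgt_b := h.hgt_b
    g_eq := h.g_eq
    h0 := h.h0
    h2 := h.h2
    y_f := h.y_f
    t_f := h.t_f
    nf := by
      have e : Pool.QC.nfb H.p H.nu (fun ω => (H.v ω, (H.th ω, H.b ω))) n₀ X 0 = 0 := by
        unfold Pool.QC.nfb
        simp
      rw [e]
      have : 0 < Real.log 2 := Real.log_pos (by norm_num)
      positivity }

theorem Ok0_OkN {H : QH c k} {n₀ : Fin c} {X B : ℕ} {C c0 d : ℝ} (h : H.Ok0 n₀ X B C c0 d) :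
    H.OkN X C d :=
  { law := h.law
    tau_r := h.tau_r
    y_r := h.y_r
    E_b := h.E_b
    be_b := h.be_b
    hgt_b := h.hgt_b
    g_eq := h.g_eq
    h0 := h.h0
    h2 := h.h2
    y_f := h.y_f
    t_f := h.t_f }

theorem Ok_Ok1 {H : QH c k} {n₀ : Fin c} {X B : ℕ} {C c0 d : ℝ} (h : H.Ok n₀ X B C c0 d) :
    H.Ok1 X C d :=
  { law := h.law
    tau_r := h.tau_r
    y_r := h.y_r
    E_b := h.E_b
    be_b := h.be_b
    nu_b := h.nu_b
    g_eq := h.g_eq
    h0 := h.h0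
    h1 := h.h1
    h2 := h.h2
    y_f := h.y_f
    t_f := h.t_f }

/-- Two times. -/
theorem two_ok1 (H : QH (c + 1) k) {X : ℕ} {C d : ℝ} (h : H.OkN X C d) (hd : 0 ≤ d) :
    H.two.Ok1 X C (2 * d) :=
  Ok_Ok1 (two_ok H (OkN_Ok0 h 0) hd (by simp))

/-- Divided heights. -/
theorem scl_okN (H : QH (c + 1) k) {X r : ℕ} {C d : ℝ} (hr : C ≤ 2 ^ r) (hX : 1 ≤ X)
    (h : H.OkN X C d) : (H.scl r).OkN X 3 (d + (((c + 1 : ℕ) : ℝ) * Real.log 3 + Ls (c + 1) r)) :=
  Ok0_OkN (scl_ok H (c0' := 0) hr hX (OkN_Ok0 h 0) (by simp))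

/-! ### The first sample -/

/-- A tuple of second times, with one first time. -/
theorem cons_gen {Ω Λ Μ : Type} [Fintype Ω] {p : Ω → ℝ} (hp : IsLaw p) (L : Ω → Λ) (M : Ω → Μ)
    (hM : ∀ ω ω', M ω = M ω' → L ω = L ω') (N : ℕ) :
    Marg (tup (p2 p L) (fun w => M w.1) N) (tup p L (N + 1))
      (fun v => Fin.cons (v 0).1 (fun j => (v j).2)) := by
  classical
  intro w
  have hp0 := hp.nonneg
  obtain ⟨x, u, rfl⟩ : ∃ (x : Ω) (u : Fin (N + 1) → Ω), w = Fin.cons x u :=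
    ⟨w 0, Fin.tail w, (Fin.cons_self_tail w).symm⟩
  let φ : (Fin (N + 1) → Ω × Ω) ≃ (Fin (N + 1) → Ω) × (Fin (N + 1) → Ω) :=
    Equiv.arrowProdEquivProdArrow (Fin (N + 1)) (fun _ => Ω) (fun _ => Ω)
  have hiff : ∀ (a b : Fin (N + 1) → Ω), (Fin.cons (α := fun _ : Fin (N + 1 + 1) => Ω) (a 0) b =
      Fin.cons x u) ↔ (a 0 = x ∧ b = u) := by
    intro a b
    exact Fin.cons_inj
  have a1 : (∑ v : Fin (N + 1) → Ω × Ω,
      if Fin.cons (α := fun _ : Fin (N + 1 + 1) => Ω) (v 0).1 (fun j => (v j).2) = Fin.cons x u then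
        tup (p2 p L) (fun w => M w.1) N v else 0) =
      ∑ z : (Fin (N + 1) → Ω) × (Fin (N + 1) → Ω),
        if z.1 0 = x ∧ z.2 = u then
          tup (p2 p L) (fun w => M w.1) N (fun j => (z.1 j, z.2 j)) else 0 := by
    refine Fintype.sum_equiv φ _ _ fun v => ?_
    by_cases h : (v 0).1 = x ∧ (fun j => (v j).2) = u
    · rw [if_pos ((hiff (fun j => (v j).1) (fun j => (v j).2)).2 h)]
      exact (if_pos (show (φ v).1 0 = x ∧ (φ v).2 = u from h)).symm
    · rw [if_neg fun h' => h ((hiff (fun j => (v j).1) (fun j => (v j).2)).1 h')]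
      exact (if_neg (show ¬ ((φ v).1 0 = x ∧ (φ v).2 = u) from h)).symm
  refine Eq.trans (Finset.sum_congr rfl fun v _ => ?_) (a1.trans ?_)
  · by_cases h : Fin.cons (α := fun _ : Fin (N + 1 + 1) => Ω) (v 0).1 (fun j => (v j).2) =
        Fin.cons x u
    · rw [if_pos h, if_pos h]
    · rw [if_neg h, if_neg h]
  rw [Fintype.sum_prod_type]
  have a2 : ∀ a : Fin (N + 1) → Ω, (∑ y : Fin (N + 1) → Ω,
      if a 0 = x ∧ y = u then tup (p2 p L) (fun w => M w.1) N (fun j => (a j, y j)) else 0) =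
      if a 0 = x then tup (p2 p L) (fun w => M w.1) N (fun j => (a j, u j)) else 0 := by
    intro a
    by_cases h : a 0 = x
    · rw [if_pos h]
      rw [Finset.sum_eq_single u]
      · rw [if_pos ⟨h, rfl⟩]
      · intro y _ hy
        rw [if_neg fun h' => hy h'.2]
      · intro h'
        exact absurd (Finset.mem_univ _) h'
    · rw [if_neg h]
      exact Finset.sum_eq_zero fun y _ => if_neg fun h' => h h'.1
  rw [Finset.sum_congr rfl fun a _ => a2 a]
  have hlaw : ∀ z, law (p2 p L) (fun w => M w.1) z = law p M z := fun z => (p2_fst hp L).law M z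
  -- the law of a tuple with given second components
  have a3 : ∀ a : Fin (N + 1) → Ω, tup (p2 p L) (fun w => M w.1) N (fun j => (a j, u j)) =
      tup p M N a * ∏ j, cond p L (L (a 0)) (u j) := by
    intro a
    rw [tup_eq (p2 p L), tup_eq p M]
    by_cases h : ∀ j, M (a j) = M (a 0)
    · rw [if_pos h, if_pos h, hlaw]
      have b1 : ∀ j, p2 p L (a j, u j) = p (a j) * cond p L (L (a 0)) (u j) := by
        intro j
        have h1 : L (a j) = L (a 0) := hM _ _ (h j)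
        unfold p2 dbl glue Pool.Agent.H49.Ent.cond
        simp only
        by_cases h2 : L (u j) = L (a 0)
        · rw [if_pos (h1.trans h2.symm), if_pos h2, h1]
          ring
        · rw [if_neg (fun h3 => h2 (h3.symm.trans h1)), if_neg h2, mul_zero]
      rw [Finset.prod_congr rfl fun j _ => b1 j, Finset.prod_mul_distrib]
      ring
    · rw [if_neg h, if_neg h, zero_mul]
  have a4 : ∀ a : Fin (N + 1) → Ω,
      (if a 0 = x then tup (p2 p L) (fun w => M w.1) N (fun j => (a j, u j)) else 0) =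
      (if a 0 = x then tup p M N a else 0) * ∏ j, cond p L (L x) (u j) := by
    intro a
    by_cases h : a 0 = x
    · rw [if_pos h, if_pos h, a3, h]
    · rw [if_neg h, if_neg h, zero_mul]
  rw [Finset.sum_congr rfl fun a _ => a4 a, ← Finset.sum_mul]
  have a5 := tup_marg hp0 M N 0 x
  have a6 : (∑ a : Fin (N + 1) → Ω, if a 0 = x then tup p M N a else 0) = p x := by
    rw [← a5]
  rw [a6]
  rfl

theorem two_line {H : QH c k} {ω ω' : H.Ω}
    (h : (H.hgt ω, ((H.v ω, (H.b ω, H.th ω)), (H.b ω, H.th ω))) =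
      (H.hgt ω', ((H.v ω', (H.b ω', H.th ω')), (H.b ω', H.th ω')))) : H.line ω = H.line ω' := by
  simp only [Prod.mk.injEq] at h
  obtain ⟨h1, ⟨h2, h3, h4⟩, -⟩ := h
  refine Prod.ext ?_ (Prod.ext h2 h3)
  unfold QH.hgt at h1
  rw [h2, h4] at h1
  exact add_right_cancel h1

/-- **BODY, the constant before the informations.** -/
theorem body0 (c k : ℕ) {C η : ℝ} (hC : 1 ≤ C) (hη : 0 < η) : ∃ (io : ℝ) (X0 : ℕ), 0 < io ∧
    ∀ (H : QH (c + 1) k) (X : ℕ), X0 ≤ X → H.OkN X C (io * X) →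
    DF (tup H.p H.line 3) (fun _ => Tx (c + 1) X)
      (fun w => bd X H.tau H.E (H.th (w 1)) (H.th (w 2)) (H.th (w 3)))
      (fun w => xv X (H.hgt (w 0)))
      (fun w => (H.b (w 0), (H.th (w 0), (H.th (w 1), (H.th (w 2), H.th (w 3)))))) ≤ η * X := by
  obtain ⟨io, X0, hio, h⟩ := bodyR (c + 1) k hC hη
  refine ⟨io / 2, X0, by positivity, fun H X hX ok => ?_⟩
  have hp := ok.law
  have h1 := h H.two X hX (Ok1_mono (two_ok1 H ok (by positivity)) (by linarith))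
  have hm : Marg (tup H.two.p H.two.line 2) (tup H.p H.line 3)
      (fun v => Fin.cons (v 0).1 (fun j => (v j).2)) :=
    cons_gen hp H.line (fun ω => (H.hgt ω, ((H.v ω, (H.b ω, H.th ω)), (H.b ω, H.th ω))))
      (fun ω ω' e => two_line e) 2
  have h2 := DF_image (q := tup H.two.p H.two.line 2) (p := tup H.p H.line 3)
    (f := fun v => Fin.cons (v 0).1 (fun j => (v j).2)) hm X
    (fun w => bd X H.tau H.E (H.th (w 1)) (H.th (w 2)) (H.th (w 3))) (fun w => H.hgt (w 0))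
    (fun w => (H.b (w 0), (H.th (w 0), (H.th (w 1), (H.th (w 2), H.th (w 3))))))
  rw [← h2]
  have hn := tup_nonneg (p2_law hp H.line).nonneg H.two.line 2
  refine (Pool.POT89.DF_drop hn _ _ _ ?_).trans h1
  intro v v' _ _ e
  simp only [Prod.mk.injEq] at e
  obtain ⟨e1, e2, e3, e4⟩ := e
  have e1' : (H.b (v 0).1, H.th (v 0).1) = (H.b (v' 0).1, H.th (v' 0).1) := e1
  have g1 := Prod.ext_iff.1 e1'
  exact Prod.ext g1.1 (Prod.ext g1.2 (Prod.ext e2 (Prod.ext e3 e4)))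

/-! ### Scaling -/

/-- The constant. -/
noncomputable def Ksc (c r : ℕ) : ℝ :=
  c * (r * Real.log 2) + c * Real.log 13 + c * Real.log (2 * (2 * (3 * c + 1)) + 1)

theorem DF_scl {Ω ζ : Type} [Fintype Ω] {p : Ω → ℝ} (hp : IsLaw p) (X r : ℕ)
    {A : Ω → Matrix (Fin c) (Fin c) ℝ} (n n' : Ω → Fin c → ℤ) (Z : Ω → ζ)
    (hdet : ∀ ω, (A ω).det ≠ 0) (hinv : ∀ ω i j, |(A ω)⁻¹ i j| ≤ 2 ^ X)
    (hn : ∀ ω i, |(n' ω i : ℝ) - (n ω i : ℝ) / 2 ^ r| ≤ 3) :
    DF p (fun _ => Tx c X) (fun ω => (2 : ℝ) ^ r • A ω) (fun ω => xv X (n ω)) Z ≤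
      DF p (fun _ => Tx c X) A (fun ω => xv X (n' ω)) Z + Ksc c r := by
  have hp0 := hp.nonneg
  have hrR : (0 : ℝ) < 2 ^ r := by positivity
  have hXR : (0 : ℝ) < 2 ^ X := by positivity
  rw [DF_xv, DF_xv]
  obtain ⟨Y, hY⟩ : ∃ Y : Ω → Fin c → ℤ, Y = fun ω => cl ((2 : ℝ) ^ r • A ω) (xv X (n ω)) :=
    ⟨_, rfl⟩
  obtain ⟨Y', hY'⟩ : ∃ Y' : Ω → Fin c → ℤ, Y' = fun ω => cl (A ω) (xv X (n' ω)) := ⟨_, rfl⟩
  -- the cells
  have hYY : ∀ ω i, |((Y ω i - Y' ω i : ℤ) : ℝ)| ≤ 3 * c + 1 := by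
    intro ω i
    rw [hY, hY']
    refine floor_sub_le ?_
    have e1 : ((2 : ℝ) ^ r • A ω)⁻¹ = ((2 : ℝ) ^ r)⁻¹ • (A ω)⁻¹ := by
      refine Matrix.inv_eq_left_inv ?_
      rw [Matrix.smul_mul, Matrix.mul_smul, smul_smul, inv_mul_cancel₀ hrR.ne', one_smul,
        Matrix.nonsing_inv_mul _ (isUnit_iff_ne_zero.2 (hdet ω))]
    have e2 : (((2 : ℝ) ^ r • A ω)⁻¹ *ᵥ xv X (n ω)) i - ((A ω)⁻¹ *ᵥ xv X (n' ω)) i =
        ∑ j, (A ω)⁻¹ i j * (xv X (n ω) j / 2 ^ r - xv X (n' ω) j) := by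
      rw [e1, Matrix.smul_mulVec, Pi.smul_apply, smul_eq_mul]
      unfold Matrix.mulVec dotProduct
      rw [Finset.mul_sum, ← Finset.sum_sub_distrib]
      refine Finset.sum_congr rfl fun j _ => ?_
      field_simp
    rw [e2]
    refine (Finset.abs_sum_le_sum_abs _ _).trans ?_
    calc ∑ j, |(A ω)⁻¹ i j * (xv X (n ω) j / 2 ^ r - xv X (n' ω) j)| ≤ ∑ _j : Fin c, (3 : ℝ) := by
          refine Finset.sum_le_sum fun j _ => ?_
          rw [abs_mul]
          have g1 := hinv ω i j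
          have g2 : |xv X (n ω) j / 2 ^ r - xv X (n' ω) j| ≤ 3 / 2 ^ X := by
            have e3 : xv X (n ω) j / 2 ^ r - xv X (n' ω) j =
                -(((n' ω j : ℝ) - (n ω j : ℝ) / 2 ^ r) / 2 ^ X) := by
              unfold xv
              field_simp
              ring
            rw [e3, abs_neg, abs_div, abs_of_pos hXR]
            exact div_le_div_of_nonneg_right (hn ω j) hXR.le
          calc _ ≤ 2 ^ X * (3 / 2 ^ X) := mul_le_mul g1 g2 (abs_nonneg _) hXR.le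
            _ = 3 := by field_simp
      _ = 3 * c := by
          simp
          ring
  -- the entropies
  have c1 : CH p n' (fun ω => (Y' ω, Z ω)) ≤ CH p Y (fun ω => (Y' ω, Z ω)) +
      CH p n' (fun ω => (Y ω, Z ω)) := by
    have d1 : CH p n' (fun ω => (Y' ω, Z ω)) ≤ CH p (fun ω => (n' ω, Y ω)) (fun ω => (Y' ω, Z ω)) :=
      CH_mono_left hp0 fun _ _ _ _ h => (Prod.ext_iff.1 (Prod.ext_iff.1 h).1).1
    have d2 := CH_chain hp0 n' Y (fun ω => (Y' ω, Z ω))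
    have d3 : CH p n' (fun ω => (Y ω, (Y' ω, Z ω))) ≤ CH p n' (fun ω => (Y ω, Z ω)) := by
      refine CH_mono_cond hp0 fun ω ω' _ _ h => ?_
      simp only [Prod.mk.injEq] at h ⊢
      exact ⟨h.1, h.2.2⟩
    linarith
  have c2 : CH p n' (fun ω => (Y ω, Z ω)) ≤ CH p n (fun ω => (Y ω, Z ω)) +
      c * Real.log 13 := by
    have d1 : CH p n' (fun ω => (Y ω, Z ω)) ≤ CH p (fun ω => (n' ω, n ω)) (fun ω => (Y ω, Z ω)) :=
      CH_mono_left hp0 fun _ _ _ _ h => (Prod.ext_iff.1 (Prod.ext_iff.1 h).1).1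
    have d2 := CH_chain hp0 n' n (fun ω => (Y ω, Z ω))
    have d3 := CH_le_vec hp0 hp.sum_one n' (fun ω => (n ω, (Y ω, Z ω))) (fun _ => 6) (by
      intro ω ω' _ _ h i
      have h1 : n ω = n ω' := (Prod.ext_iff.1 h).1
      have g1 := hn ω i
      have g2 := hn ω' i
      rw [h1] at g1
      push_cast
      rw [abs_le] at g1 g2 ⊢
      constructor <;> linarith [g1.1, g1.2, g2.1, g2.2])
    rw [Ex_const hp.sum_one, show (2 : ℝ) * 6 + 1 = 13 by norm_num] at d3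
    linarith
  have c3 : CH p Y (fun ω => (Y' ω, Z ω)) ≤ c * Real.log (2 * (2 * (3 * c + 1)) + 1) := by
    have d3 := CH_le_vec hp0 hp.sum_one Y (fun ω => (Y' ω, Z ω)) (fun _ => 2 * (3 * c + 1)) (by
      intro ω ω' _ _ h i
      have h1 : Y' ω = Y' ω' := (Prod.ext_iff.1 h).1
      have g1 := hYY ω i
      have g2 := hYY ω' i
      rw [h1] at g1
      push_cast at g1 g2 ⊢
      rw [abs_le] at g1 g2 ⊢
      constructor <;> linarith [g1.1, g1.2, g2.1, g2.2])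
    rw [Ex_const hp.sum_one] at d3
    exact d3
  -- the levels
  have c4 : Ex p (fun ω => lv ((2 : ℝ) ^ r • A ω) - lv (Tx c X)) =
      Ex p (fun ω => lv (A ω) - lv (Tx c X)) + c * (r * Real.log 2) := by
    have e : (fun ω => lv ((2 : ℝ) ^ r • A ω) - lv (Tx c X)) =
        fun ω => (lv (A ω) - lv (Tx c X)) + c * (r * Real.log 2) := by
      funext ω
      unfold lv
      rw [Matrix.det_smul, Fintype.card_fin, abs_mul,
        Real.log_mul (abs_ne_zero.2 (by positivity)) (abs_ne_zero.2 (hdet ω)),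
        abs_of_pos (by positivity), Real.log_pow, Real.log_pow]
      ring
    rw [e, Ex_add, Ex_const hp.sum_one]
  rw [c4]
  rw [hY] at c1 c2
  rw [hY'] at c1 c3
  rw [hY] at c3
  unfold Ksc
  simp only at c1 c2 c3 ⊢
  linarith

/-- The three-point vectors of the divided slopes. -/
theorem d3_scl {T : Type} (tau : T → ℤ) (E : T → Fin k → Fin c → ℝ) (r : ℕ) (u : Fin k)
    (t0 t1 t2 : T) : d3 tau E u t0 t1 t2 =
      (2 : ℝ) ^ r • d3 tau (fun t u i => E t u i / 2 ^ r) u t0 t1 t2 := by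
  classical
  funext i
  rw [Pi.smul_apply, smul_eq_mul]
  unfold d3
  by_cases h : tau t1 ≠ tau t2 ∧ |tau t0 - tau t2| ≤ |tau t1 - tau t2|
  · rw [if_pos h, if_pos h]
    field_simp
  · rw [if_neg h, if_neg h, mul_zero]

/-- **BODY.** -/
theorem body_stmt (c k : ℕ) : BodyStmt c k := by
  intro η hη
  rcases c with _ | c
  · refine ⟨1, one_pos, fun C hC => ⟨1, 0, fun H X _ ok => ⟨fun _ _ _ => 1, fun t0 t1 t2 =>
      ⟨by simp, fun i => i.elim0, fun i => i.elim0, fun u b => b.elim0⟩, ?_⟩⟩⟩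
    have hp := tup_nonneg ok.law.nonneg H.line 3
    rw [DF_xv]
    have e : ∀ A : Matrix (Fin 0) (Fin 0) ℝ, lv A = 0 := by
      intro A
      unfold lv
      rw [Matrix.det_fin_zero, abs_one, Real.log_one]
    simp only [e, sub_zero]
    have h1 : Ex (tup H.p H.line 3) (fun _ => (0 : ℝ)) = 0 := by
      unfold Ex
      simp
    rw [h1]
    have h2 := CH_nonneg hp (fun w => H.hgt (w 0)) (fun w =>
      (cl (1 : Matrix (Fin 0) (Fin 0) ℝ) (xv X (H.hgt (w 0))),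
        (H.b (w 0), (H.th (w 0), (H.th (w 1), (H.th (w 2), H.th (w 3)))))))
    have h3 : 0 ≤ η * X := by positivity
    linarith
  obtain ⟨io, X0, hio, h⟩ := body0 c k (C := 3) (η := η / 2) (by norm_num) (by positivity)
  refine ⟨io / 2, by positivity, fun C hC => ?_⟩
  obtain ⟨r, hr⟩ : ∃ r : ℕ, C ≤ 2 ^ r := by
    obtain ⟨r, hr⟩ := pow_unbounded_of_one_lt C (show (1 : ℝ) < 2 by norm_num)
    exact ⟨r, hr.le⟩
  have hrR : (0 : ℝ) < 2 ^ r := by positivity
  have hr1 : (1 : ℝ) ≤ 2 ^ r := one_le_pow₀ (by norm_num)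
  obtain ⟨Kd, hKd⟩ : ∃ Kd : ℝ, Kd = ((c + 1 : ℕ) : ℝ) * Real.log 3 + Ls (c + 1) r := ⟨_, rfl⟩
  obtain ⟨X1, hX1⟩ := exists_nat_ge (Kd / (io / 2))
  obtain ⟨X2, hX2⟩ := exists_nat_ge (Ksc (c + 1) r / (η / 2))
  obtain ⟨K1, hK1⟩ : ∃ K1 : ℝ, K1 = 2 ^ r * (4 * 3) + (1 + ((c + 1 : ℕ) : ℝ) * (2 * 3)) :=
    ⟨_, rfl⟩
  refine ⟨K1, max (max X0 1) (max X1 X2), fun H X hX ok => ?_⟩
  have l0 : X0 ≤ X := (le_max_left _ _).trans ((le_max_left _ _).trans hX)
  have l3 : 1 ≤ X := (le_max_right _ _).trans ((le_max_left _ _).trans hX)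
  have l1 : (X1 : ℝ) ≤ X := by
    exact_mod_cast (le_max_left _ _).trans ((le_max_right _ _).trans hX)
  have l2 : (X2 : ℝ) ≤ X := by
    exact_mod_cast (le_max_right _ _).trans ((le_max_right _ _).trans hX)
  have hb1 : Kd ≤ io / 2 * X := by
    have h1 := hX1.trans l1
    rw [div_le_iff₀ (by positivity)] at h1
    linarith
  have hb2 : Ksc (c + 1) r ≤ η / 2 * X := by
    have h1 := hX2.trans l2
    rw [div_le_iff₀ (by positivity)] at h1
    linarith
  have hk := scl_okN H hr l3 ok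
  rw [← hKd] at hk
  have hk' : (H.scl r).OkN X 3 (io * X) := by
    have h1 := Ok0_mono (OkN_Ok0 hk 0) (d' := io * X) (by linarith)
    exact Ok0_OkN h1
  have h1 := h (H.scl r) X l0 hk'
  have ht : tup (H.scl r).p (H.scl r).line 3 = tup H.p H.line 3 :=
    tup_ker (p := H.p) (H.scl r).line H.line (scl_line H r) 3
  rw [ht] at h1
  obtain ⟨E', hE'⟩ : ∃ E' : H.Tt → Fin k → Fin (c + 1) → ℝ, E' = fun t u i => H.E t u i / 2 ^ r :=
    ⟨_, rfl⟩
  obtain ⟨n', hn'⟩ : ∃ n' : H.Ω → Fin (c + 1) → ℤ, n' = (H.scl r).hgt := ⟨_, rfl⟩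
  have hE : ∀ t u i, |E' t u i| ≤ 3 := by
    rw [hE']
    exact hk.E_b
  have h1' : DF (tup H.p H.line 3) (fun _ => Tx (c + 1) X)
        (fun w => bd X H.tau E' (H.th (w 1)) (H.th (w 2)) (H.th (w 3)))
        (fun w => xv X (n' (w 0)))
        (fun w => (H.b (w 0), (H.th (w 0), (H.th (w 1), (H.th (w 2), H.th (w 3)))))) ≤
        η / 2 * X := by
    rw [hE', hn']
    exact h1
  refine ⟨fun t0 t1 t2 => (2 : ℝ) ^ r • bd X H.tau E' t0 t1 t2, fun t0 t1 t2 => ?_, ?_⟩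
  · have e1 : ((2 : ℝ) ^ r • bd X H.tau E' t0 t1 t2)⁻¹ =
        ((2 : ℝ) ^ r)⁻¹ • (bd X H.tau E' t0 t1 t2)⁻¹ := by
      refine Matrix.inv_eq_left_inv ?_
      rw [Matrix.smul_mul, Matrix.mul_smul, smul_smul, inv_mul_cancel₀ hrR.ne', one_smul,
        Matrix.nonsing_inv_mul _ (isUnit_iff_ne_zero.2 (bd_det X H.tau E' t0 t1 t2))]
    have hc0 : (0 : ℝ) ≤ 1 + ((c + 1 : ℕ) : ℝ) * (2 * 3) := by positivity
    dsimp only
    refine ⟨?_, fun i j => ?_, fun i j => ?_, fun u b => ?_⟩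
    · rw [Matrix.det_smul]
      exact mul_ne_zero (by positivity) (bd_det X H.tau E' t0 t1 t2)
    · rw [Matrix.smul_apply, smul_eq_mul, abs_mul, abs_of_pos hrR]
      have h2 := bd_entry X H.tau E' (C := 3) (by norm_num) hE t0 t1 t2 i j
      have h3 := mul_le_mul_of_nonneg_left h2 hrR.le
      rw [hK1]
      linarith
    · rw [e1, Matrix.smul_apply, smul_eq_mul, abs_mul, abs_of_pos (inv_pos.2 hrR)]
      have h2 := bd_inv X H.tau E' t0 t1 t2 i j
      calc _ ≤ 1 * 2 ^ X := mul_le_mul (inv_le_one_of_one_le₀ hr1) h2 (abs_nonneg _) zero_le_one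
        _ = _ := one_mul _
    · have h2 := bd_d3 X H.tau E' (C := 3) (by norm_num) hE t0 t1 t2 u b
      have h3 : ((2 : ℝ) ^ r • bd X H.tau E' t0 t1 t2)⁻¹ *ᵥ d3 H.tau H.E u t0 t1 t2 =
          (bd X H.tau E' t0 t1 t2)⁻¹ *ᵥ d3 H.tau E' u t0 t1 t2 := by
        rw [e1, d3_scl H.tau H.E r u t0 t1 t2, Matrix.smul_mulVec, Matrix.mulVec_smul, smul_smul,
          inv_mul_cancel₀ hrR.ne', one_smul, ← hE']
      rw [h3, hK1]
      have : (0 : ℝ) < 2 ^ r * (4 * 3) := by positivity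
      linarith
  · have hlw := tup_isLaw ok.law H.line 3
    have h2 := DF_scl hlw X r (A := fun w => bd X H.tau E' (H.th (w 1)) (H.th (w 2))
      (H.th (w 3))) (fun w => H.hgt (w 0)) (fun w => n' (w 0))
      (fun w => (H.b (w 0), (H.th (w 0), (H.th (w 1), (H.th (w 2), H.th (w 3))))))
      (fun w => bd_det _ _ _ _ _ _) (fun w => bd_inv _ _ _ _ _ _) (by
        intro w i
        have e3 : n' (w 0) i = H.nu (w 0) i / 2 ^ r +
          H.g (H.th (w 0)) (H.v (w 0)) i / 2 ^ r := by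
          rw [hn']
          rfl
        have e4 : H.hgt (w 0) i = H.nu (w 0) i + H.g (H.th (w 0)) (H.v (w 0)) i := rfl
        have g1 := div_real (H.nu (w 0) i) r
        have g2 := div_real (H.g (H.th (w 0)) (H.v (w 0)) i) r
        rw [e3, e4]
        push_cast
        rw [abs_le] at g1 g2 ⊢
        rw [add_div]
        constructor <;> linarith [g1.1, g1.2, g2.1, g2.2])
    refine h2.trans ?_
    linarith

end Pool.QT64
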