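import Pool.Agent.H64.QUAD.Scl
import Pool.Agent.H21.POT.Dat

/-!
# BODY (row 366, K_POT): the statement and the body of three times

`QH.OkN`: the hypotheses of the consumer without nonfullness. `bd`: the body of three times, spanned
by the `c` vectors of largest determinant among the three-point vectors and the small axes.
`BodyStmt`: the height at a fourth time is full in the body, given the context and all times.
-/

set_option autoImplicit false

namespace Pool.QT64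

open Finset Real Matrix
open Pool.Agent.H49.Ent Pool.Agent.H32.Dense Pool.STK Pool.KS6 Pool.SLO
open Pool.QC (mat QD)
open Pool.FAD (DF)
open Pool.POT (Tx xv)

variable {c k : ℕ}

/-- The hypotheses of the consumer without nonfullness. -/
structure QH.OkN (H : QH c k) (X : ℕ) (C d : ℝ) : Prop where
  law : IsLaw H.p
  tau_r : ∀ t, 0 ≤ H.tau t ∧ H.tau t < 2 ^ X
  y_r : ∀ v j, 0 ≤ H.y v j ∧ H.y v j < 2 ^ X
  E_b : ∀ t u i, |H.E t u i| ≤ C
  be_b : ∀ v i, |H.be v i| ≤ C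
  hgt_b : ∀ ω i, |(H.hgt ω i : ℝ)| ≤ C * 2 ^ X
  g_eq : ∀ t v i, |(H.g t v i : ℝ) -
    (H.tau t * H.be v i - ∑ u, H.E t u i * H.y v u + H.a0 t i + H.b0 v i)| ≤ C
  h0 : CH H.p H.th H.b - CH H.p H.th H.line ≤ d
  h2 : CH H.p H.hgt (fun ω => (H.th ω, H.b ω)) -
    CH H.p H.hgt (fun ω => (H.v ω, (H.th ω, H.b ω))) ≤ d
  y_f : k * X * Real.log 2 - d ≤ CH H.p (fun ω => H.y (H.v ω)) H.b
  t_f : X * Real.log 2 - d ≤ CH H.p (fun ω => H.tau (H.th ω)) H.b

open Classical in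
/-- The three-point vector of the slopes. -/
noncomputable def d3 {T : Type} (tau : T → ℤ) (E : T → Fin k → Fin c → ℝ) (u : Fin k)
    (t0 t1 t2 : T) (i : Fin c) : ℝ :=
  if tau t1 ≠ tau t2 ∧ |tau t0 - tau t2| ≤ |tau t1 - tau t2| then
    E t0 u i - E t2 u i -
      (((tau t0 : ℝ) - tau t2) / (tau t1 - tau t2)) * (E t1 u i - E t2 u i)
  else 0

/-- **(BODY)** -/
def BodyStmt (c k : ℕ) : Prop :=
  ∀ η : ℝ, 0 < η → ∃ io : ℝ, 0 < io ∧ ∀ C : ℝ, 1 ≤ C → ∃ (K1 : ℝ) (X0 : ℕ),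
    ∀ (H : QH c k) (X : ℕ), X0 ≤ X → H.OkN X C (io * X) →
    ∃ A0 : H.Tt → H.Tt → H.Tt → Matrix (Fin c) (Fin c) ℝ,
      (∀ t0 t1 t2, (A0 t0 t1 t2).det ≠ 0 ∧ (∀ i j, |A0 t0 t1 t2 i j| ≤ K1) ∧
        (∀ i j, |(A0 t0 t1 t2)⁻¹ i j| ≤ 2 ^ X) ∧
        ∀ u b, |((A0 t0 t1 t2)⁻¹ *ᵥ d3 H.tau H.E u t0 t1 t2) b| ≤ K1) ∧
      DF (tup H.p H.line 3) (fun _ => Tx c X)
        (fun w => A0 (H.th (w 1)) (H.th (w 2)) (H.th (w 3))) (fun w => xv X (H.hgt (w 0)))
        (fun w => (H.b (w 0), (H.th (w 0), (H.th (w 1), (H.th (w 2), H.th (w 3)))))) ≤ η * X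

/-! ### The body of three times -/

open Classical in
/-- The family: the three-point vectors with a rounded ratio, and the small axes. -/
noncomputable def fm3 {T : Type} (X : ℕ) (tau : T → ℤ) (E : T → Fin k → Fin c → ℝ)
    (t0 t1 t2 : T) : Fin k ⊕ Fin c → Fin c → ℝ
  | .inl u => if tau t1 ≠ tau t2 ∧ |tau t0 - tau t2| ≤ |tau t1 - tau t2| then
      fun i => E t0 u i - E t2 u i -
        ((((2 ^ X * (tau t0 - tau t2)) / (tau t1 - tau t2) : ℤ) : ℝ) / 2 ^ X) *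
          (E t1 u i - E t2 u i)
      else 0
  | .inr i => Pi.single i ((2 : ℝ) ^ X)⁻¹

section body

variable {T : Type} (X : ℕ) (tau : T → ℤ) (E : T → Fin k → Fin c → ℝ)

theorem exists_bd (t0 t1 t2 : T) : ∃ f : Fin c → Fin k ⊕ Fin c,
    (mat fun b => fm3 X tau E t0 t1 t2 (f b)).det ≠ 0 ∧
    ∀ v b, |((mat fun b => fm3 X tau E t0 t1 t2 (f b))⁻¹ *ᵥ fm3 X tau E t0 t1 t2 v) b| ≤ 1 := by
  refine Pool.QC.exists_basis (fm3 X tau E t0 t1 t2) (fun b => .inr b) ?_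
  have e : (mat fun b => fm3 X tau E t0 t1 t2 (.inr b)) = Tx c X := by
    ext i j
    simp only [mat, fm3, Tx, Matrix.of_apply, Matrix.diagonal_apply, Pi.single_apply]
  rw [e]
  exact Pool.POT.Tx_det c X

/-- The chosen vectors. -/
noncomputable def bf (t0 t1 t2 : T) : Fin c → Fin k ⊕ Fin c := (exists_bd X tau E t0 t1 t2).choose

/-- The body of three times. -/
noncomputable def bd (t0 t1 t2 : T) : Matrix (Fin c) (Fin c) ℝ :=
  mat fun b => fm3 X tau E t0 t1 t2 (bf X tau E t0 t1 t2 b)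

theorem bd_det (t0 t1 t2 : T) : (bd X tau E t0 t1 t2).det ≠ 0 :=
  (exists_bd X tau E t0 t1 t2).choose_spec.1

theorem bd_le (t0 t1 t2 : T) (v : Fin k ⊕ Fin c) (b : Fin c) :
    |((bd X tau E t0 t1 t2)⁻¹ *ᵥ fm3 X tau E t0 t1 t2 v) b| ≤ 1 :=
  (exists_bd X tau E t0 t1 t2).choose_spec.2 v b

theorem bd_inv (t0 t1 t2 : T) (i j : Fin c) : |(bd X tau E t0 t1 t2)⁻¹ i j| ≤ 2 ^ X := by
  have e := bd_le X tau E t0 t1 t2 (.inr j) i
  have e1 : fm3 X tau E t0 t1 t2 (.inr j) = Pi.single j ((2 : ℝ) ^ X)⁻¹ := rfl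
  rw [e1, Matrix.mulVec_single] at e
  simp only [Pi.smul_apply, MulOpposite.smul_eq_mul_unop, MulOpposite.unop_op,
    Matrix.col_apply] at e
  rw [abs_mul, abs_of_pos (by positivity : (0 : ℝ) < ((2 : ℝ) ^ X)⁻¹), ← div_eq_mul_inv,
    div_le_one (by positivity)] at e
  exact e

/-- The rounded ratio. -/
theorem ratio_bd {α β : ℤ} (h0 : α ≠ 0) (h : |β| ≤ |α|) :
    |2 ^ X * β / α| ≤ 2 ^ X ∧ 0 ≤ 2 ^ X * β - (2 ^ X * β / α) * α ∧
      2 ^ X * β - (2 ^ X * β / α) * α < |α| := by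
  have hr0 : 0 ≤ (2 ^ X * β) % α := Int.emod_nonneg _ h0
  have hr1 : (2 ^ X * β) % α < |α| := Int.emod_lt_abs _ h0
  have hdiv := Int.mul_ediv_add_emod (2 ^ X * β) α
  have h5 : |2 ^ X * β| ≤ 2 ^ X * |α| := by
    rw [abs_mul, abs_of_nonneg (by positivity : (0 : ℤ) ≤ 2 ^ X)]
    exact mul_le_mul_of_nonneg_left h (by positivity)
  have hpX : (1 : ℤ) ≤ 2 ^ X := one_le_pow₀ (by norm_num)
  obtain ⟨v, hv⟩ : ∃ v : ℤ, v = 2 ^ X * β / α := ⟨_, rfl⟩
  obtain ⟨r, hr⟩ : ∃ r : ℤ, r = (2 ^ X * β) % α := ⟨_, rfl⟩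
  rw [← hv, ← hr] at hdiv
  rw [← hr] at hr0 hr1
  rw [← hv]
  have e : 2 ^ X * β - v * α = r := by linarith
  refine ⟨?_, by rw [e]; exact hr0, by rw [e]; exact hr1⟩
  rw [abs_le] at h5 ⊢
  rcases lt_or_gt_of_ne h0 with hn | hp
  · rw [abs_of_neg hn] at h5 hr1
    constructor <;> nlinarith
  · rw [abs_of_pos hp] at h5 hr1
    constructor <;> nlinarith

variable {C : ℝ}

theorem fm3_le (hC : 1 ≤ C) (hE : ∀ t u i, |E t u i| ≤ C) (t0 t1 t2 : T) (v : Fin k ⊕ Fin c)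
    (i : Fin c) : |fm3 X tau E t0 t1 t2 v i| ≤ 4 * C := by
  classical
  rcases v with u | j
  · simp only [fm3]
    split_ifs with h
    · have h0 : tau t1 - tau t2 ≠ 0 := sub_ne_zero.2 h.1
      obtain ⟨h1, -, -⟩ := ratio_bd X h0 h.2
      have h2 : |(((2 ^ X * (tau t0 - tau t2)) / (tau t1 - tau t2) : ℤ) : ℝ) / 2 ^ X| ≤ 1 := by
        rw [abs_div, abs_of_pos (by positivity : (0 : ℝ) < 2 ^ X), div_le_one (by positivity)]
        exact_mod_cast h1
      have a0 := hE t0 u i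
      have a1 := hE t1 u i
      have a2 := hE t2 u i
      have b1 := abs_sub (E t0 u i) (E t2 u i)
      have b2 := abs_sub (E t1 u i) (E t2 u i)
      refine (abs_sub _ _).trans ?_
      rw [abs_mul]
      have b3 := mul_le_mul h2 (b2.trans (add_le_add a1 a2)) (abs_nonneg _) zero_le_one
      linarith
    · simp only [Pi.zero_apply, abs_zero]
      linarith
  · simp only [fm3, Pi.single_apply]
    split_ifs
    · rw [abs_of_pos (by positivity)]
      have : ((2 : ℝ) ^ X)⁻¹ ≤ 1 := inv_le_one_of_one_le₀ (one_le_pow₀ (by norm_num))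
      linarith
    · rw [abs_zero]
      linarith

theorem bd_entry (hC : 1 ≤ C) (hE : ∀ t u i, |E t u i| ≤ C) (t0 t1 t2 : T) (i j : Fin c) :
    |bd X tau E t0 t1 t2 i j| ≤ 4 * C := fm3_le X tau E hC hE t0 t1 t2 _ i

/-- The three-point vectors lie in the body. -/
theorem bd_d3 (hC : 1 ≤ C) (hE : ∀ t u i, |E t u i| ≤ C) (t0 t1 t2 : T) (u : Fin k)
    (b : Fin c) : |((bd X tau E t0 t1 t2)⁻¹ *ᵥ d3 tau E u t0 t1 t2) b| ≤ 1 + c * (2 * C) := by
  classical
  have hX : (0 : ℝ) < 2 ^ X := by positivity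
  have h1 := bd_le X tau E t0 t1 t2 (.inl u) b
  have h2 : ∀ i, |d3 tau E u t0 t1 t2 i - fm3 X tau E t0 t1 t2 (.inl u) i| ≤ 2 * C / 2 ^ X := by
    intro i
    simp only [fm3, d3]
    split_ifs with h
    · have h0 : tau t1 - tau t2 ≠ 0 := sub_ne_zero.2 h.1
      obtain ⟨-, g1, g2⟩ := ratio_bd X h0 h.2
      obtain ⟨v, hv⟩ : ∃ v : ℤ, v = 2 ^ X * (tau t0 - tau t2) / (tau t1 - tau t2) := ⟨_, rfl⟩
      rw [← hv] at g1 g2 ⊢
      have a1 := hE t1 u i
      have a2 := hE t2 u i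
      have b2 := abs_sub (E t1 u i) (E t2 u i)
      have e : E t0 u i - E t2 u i - (((tau t0 : ℝ) - tau t2) / (tau t1 - tau t2)) *
          (E t1 u i - E t2 u i) - (E t0 u i - E t2 u i - ((v : ℝ) / 2 ^ X) *
          (E t1 u i - E t2 u i)) = -((2 ^ X * (tau t0 - tau t2) - v * (tau t1 - tau t2)) /
          (2 ^ X * (tau t1 - tau t2))) * (E t1 u i - E t2 u i) := by
        have h0' : (tau t1 : ℝ) - tau t2 ≠ 0 := by
          have : ((tau t1 - tau t2 : ℤ) : ℝ) ≠ 0 := by exact_mod_cast h0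
          push_cast at this
          exact this
        field_simp
        ring
      rw [e, abs_mul, abs_neg, abs_div, abs_mul, abs_of_pos hX]
      have h3 : |(2 : ℝ) ^ X * (tau t0 - tau t2) - v * (tau t1 - tau t2)| ≤
          |(tau t1 : ℝ) - tau t2| := by
        have k1 : |2 ^ X * (tau t0 - tau t2) - v * (tau t1 - tau t2)| ≤ |tau t1 - tau t2| := by
          rw [abs_of_nonneg g1]
          exact g2.le
        exact_mod_cast k1
      have h4 : 0 < |(tau t1 : ℝ) - tau t2| := by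
        have : 0 < |tau t1 - tau t2| := abs_pos.2 h0
        exact_mod_cast this
      have h5 : |(2 : ℝ) ^ X * (tau t0 - tau t2) - v * (tau t1 - tau t2)| /
          (2 ^ X * |(tau t1 : ℝ) - tau t2|) ≤ 1 / 2 ^ X := by
        rw [div_le_div_iff₀ (by positivity) hX]
        nlinarith
      calc _ ≤ 1 / 2 ^ X * (2 * C) := mul_le_mul h5 (by linarith) (abs_nonneg _) (by positivity)
        _ = _ := by ring
    · simp only [Pi.zero_apply, sub_self, abs_zero]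
      positivity
  have h3 : (bd X tau E t0 t1 t2)⁻¹ *ᵥ d3 tau E u t0 t1 t2 =
      (bd X tau E t0 t1 t2)⁻¹ *ᵥ fm3 X tau E t0 t1 t2 (.inl u) +
      (bd X tau E t0 t1 t2)⁻¹ *ᵥ (d3 tau E u t0 t1 t2 - fm3 X tau E t0 t1 t2 (.inl u)) := by
    rw [← Matrix.mulVec_add]
    congr 1
    abel
  rw [h3, Pi.add_apply]
  refine (abs_add_le _ _).trans (add_le_add h1 ?_)
  rw [Matrix.mulVec, dotProduct]
  refine (Finset.abs_sum_le_sum_abs _ _).trans ?_
  calc ∑ i, |(bd X tau E t0 t1 t2)⁻¹ b i *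
        (d3 tau E u t0 t1 t2 - fm3 X tau E t0 t1 t2 (.inl u)) i| ≤ ∑ _i : Fin c, 2 * C := by
        refine Finset.sum_le_sum fun i _ => ?_
        rw [abs_mul]
        have g1 := bd_inv X tau E t0 t1 t2 b i
        have g2 := h2 i
        calc _ ≤ 2 ^ X * (2 * C / 2 ^ X) := mul_le_mul g1 g2 (abs_nonneg _) hX.le
          _ = 2 * C := by field_simp
    _ = c * (2 * C) := by simp

/-- The columns of the body. -/
theorem bd_col (t0 t1 t2 : T) (b : Fin c) :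
    (∃ u : Fin k, (tau t1 ≠ tau t2 ∧ |tau t0 - tau t2| ≤ |tau t1 - tau t2|) ∧
      fm3 X tau E t0 t1 t2 (bf X tau E t0 t1 t2 b) = fun i => E t0 u i - E t2 u i -
        ((((2 ^ X * (tau t0 - tau t2)) / (tau t1 - tau t2) : ℤ) : ℝ) / 2 ^ X) *
          (E t1 u i - E t2 u i)) ∨
    ∃ i, fm3 X tau E t0 t1 t2 (bf X tau E t0 t1 t2 b) = Pi.single i ((2 : ℝ) ^ X)⁻¹ := by
  classical
  rcases hb : bf X tau E t0 t1 t2 b with u | i
  · by_cases h : tau t1 ≠ tau t2 ∧ |tau t0 - tau t2| ≤ |tau t1 - tau t2|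
    · left
      refine ⟨u, h, ?_⟩
      simp only [fm3]
      rw [if_pos h]
    · exfalso
      have h1 := bd_det X tau E t0 t1 t2
      apply h1
      refine Matrix.det_eq_zero_of_column_eq_zero b fun i => ?_
      show fm3 X tau E t0 t1 t2 (bf X tau E t0 t1 t2 b) i = 0
      rw [hb]
      simp only [fm3]
      rw [if_neg h]
      rfl
  · exact Or.inr ⟨i, rfl⟩

end body

open Classical in
/-- **The body of three times of a graph is a family of candidates.** -/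
theorem bd_cand (D : QD c k) {X m : ℕ} {C q q1 : ℝ} (hD : D.Ok X C q) {T : Type} (tau : T → ℤ)
    (E : T → Fin k → Fin c → ℝ) (t0 t1 t2 : T) (s : Fin 3 → D.TT)
    (hs : ∀ j, D.tau (s j) = tau (![t0, t1, t2] j) ∧ D.E (s j) = E (![t0, t1, t2] j))
    (hq : q1 ≤ D.cnV s) (b : Fin c) :
    (∃ w, D.Cand X m q1 0 w (fm3 X tau E t0 t1 t2 (bf X tau E t0 t1 t2 b))) ∨
      ∃ i, fm3 X tau E t0 t1 t2 (bf X tau E t0 t1 t2 b) = Pi.single i ((2 : ℝ) ^ X)⁻¹ := by
  rcases bd_col X tau E t0 t1 t2 b with ⟨u, ⟨h1, h2⟩, h3⟩ | h3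
  · left
    have hle : ∀ {J : Type} (σ : J → Fin 3), q1 ≤ D.cnV (fun j => s (σ j)) := by
      intro J σ
      refine hq.trans ?_
      unfold QD.cnV
      refine Finset.sum_le_sum fun v _ => ?_
      have h0 : 0 ≤ D.vp v := hD.vp_nn v
      by_cases h1 : ∀ j, D.adj (s j) v
      · rw [if_pos h1, if_pos fun j => h1 (σ j)]
      · rw [if_neg h1]
        split_ifs
        · exact h0
        · exact le_rfl
    have s0 : D.tau (s 0) = tau t0 ∧ D.E (s 0) = E t0 := hs 0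
    have s1 : D.tau (s 1) = tau t1 ∧ D.E (s 1) = E t1 := hs 1
    have s2 : D.tau (s 2) = tau t2 ∧ D.E (s 2) = E t2 := hs 2
    have hα0 : tau t1 - tau t2 ≠ 0 := sub_ne_zero.2 h1
    obtain ⟨g0, g1, g2⟩ := ratio_bd X hα0 h2
    have r1 := hD.tau_r (s 1)
    have r2 := hD.tau_r (s 2)
    rw [s1.1] at r1
    rw [s2.1] at r2
    have hα : |tau t1 - tau t2| ≤ 2 ^ X := by
      rw [abs_le]
      constructor <;> linarith [r1.1, r1.2, r2.1, r2.2]
    refine ⟨false, u, Or.inl ⟨fun i => s (![1, 2] i), fun i => s (![0, 2] i), ?_, ?_⟩⟩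
    · have := hle (J := Fin 2 ⊕ Fin 2) (Sum.elim ![1, 2] ![0, 2])
      refine this.trans (le_of_eq ?_)
      congr 1
      funext j
      rcases j with j | j <;> rfl
    · refine ⟨fun j hj => absurd (Subsingleton.elim j 0) hj, ?_,
        Or.inr ⟨rfl, 2 ^ X * (tau t0 - tau t2) / (tau t1 - tau t2), g0, ?_, ?_⟩⟩
      · show |D.tau (s 1) - D.tau (s 2)| * 2 ^ 0 ≤ 2 ^ (X + 1)
        rw [s1.1, s2.1, pow_zero, mul_one, pow_succ]
        have : (0 : ℤ) < 2 ^ X := by positivity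
        linarith
      · show |2 ^ X * (D.tau (s 0) - D.tau (s 2)) -
          (2 ^ X * (tau t0 - tau t2) / (tau t1 - tau t2)) * (D.tau (s 1) - D.tau (s 2))| ≤ 4 * 2 ^ X
        rw [s0.1, s1.1, s2.1, abs_of_nonneg g1]
        have : (0 : ℤ) < 2 ^ X := by positivity
        linarith
      · rw [h3]
        funext i
        show _ = (D.E (s 0) u i - D.E (s 2) u i) - _ * (D.E (s 1) u i - D.E (s 2) u i)
        rw [s0.2, s1.2, s2.2]
  · exact Or.inr h3

end Pool.QT64
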