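import Pool.Agent.H64.POT.Sam
import Pool.Agent.H64.QUAD.Fin

/-!
# BODY when `nu` is almost independent of `v`

`bodyR`: `nu` is full in the body of three times of its line, given the context and the times.
-/

set_option autoImplicit false
set_option linter.unusedSectionVars false
set_option linter.unusedVariables false

namespace Pool.QT64

open Finset Real
open Pool.Agent.H49.Ent Pool.Agent.H32.Dense Pool.CH30 Pool.STK Pool.KS6 Pool.SLO Pool.RC21
open Pool.ST79 Pool.FAD Pool.POT Pool.POT89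
open Pool.QC (QD mat)
open Pool.BFL (Pb)

variable {c k : ℕ}

theorem push_cond {Ω Ω' T : Type} [Fintype Ω] [Fintype Ω'] {q : Ω' → ℝ} {p : Ω → ℝ}
    {f : Ω' → Ω} (h : Push q p f) (g : Ω → T) (z : T) :
    Push (cond q (fun w => g (f w)) z) (cond p g z) f := by
  classical
  intro w
  have h1 := h.law g z
  unfold Pool.Agent.H49.Ent.cond
  rw [h1]
  by_cases h2 : g w = z
  · rw [if_pos h2, ← h w, Finset.sum_div]
    refine Finset.sum_congr rfl fun w' _ => ?_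
    by_cases h3 : f w' = w
    · rw [if_pos h3, if_pos h3, if_pos (show g (f w') = z by rw [h3]; exact h2)]
    · rw [if_neg h3, if_neg h3, zero_div]
  · rw [if_neg h2]
    refine Finset.sum_eq_zero fun w' _ => ?_
    by_cases h3 : f w' = w
    · rw [if_pos h3, if_neg (show ¬ g (f w') = z by rw [h3]; exact h2)]
    · rw [if_neg h3]

section world

variable (H : QH c k) (Z : Blk H.p H.b H.nu)

/-- The law of the block at the world. -/
theorem world_DF (hp : IsLaw H.p) (N X : ℕ) (A : Matrix (Fin c) (Fin c) ℝ)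
    (e : (Fin c → ℤ) × H.B) :
    DF (cond (tup (wg Z) H.KK N) (fun u => wE Z (u 0).1) e) (fun _ => Tx c X) (fun _ => A)
      (fun u => xv X (Z.y (u 0).1)) (fun _ => ()) =
    DF (rw' Z e) (fun _ => Tx c X) (fun _ => A) (fun ω => xv X (Z.y ω)) (fun _ => ()) := by
  have h1 : Push (tup (wg Z) H.KK N) Z.p (fun u => (u 0).1) :=
    (wg_fst Z).comp (tup_marg (wg_nn hp.nonneg Z) H.KK N 0)
  have h2 := push_cond h1 (wE Z) e
  exact DF_image h2 X (fun _ => A) (fun ω => Z.y ω) (fun _ => ())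

/-- The times carry little information about the block, given the world. -/
theorem time_info (hp : IsLaw H.p) (N : ℕ) {d : ℝ}
    (h0 : CH H.p H.th H.b - CH H.p H.th H.line ≤ d) :
    CH (tup (wg Z) H.KK N) (fun u => Z.y (u 0).1) (fun u => wE Z (u 0).1) -
      CH (tup (wg Z) H.KK N) (fun u => Z.y (u 0).1)
        (fun u => ((H.b (u 0).2, fun j => H.T' (u j).2), wE Z (u 0).1)) ≤ (N + 1) * d := by
  have hw := wg_nn hp.nonneg Z
  have hP : ∀ u, 0 ≤ tup (wg Z) H.KK N u := tup_nonneg hw _ _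
  have hsup : ∀ u, 0 < tup (wg Z) H.KK N u → Z.b (u 0).1 = H.b (u 0).2 ∧
      Z.y (u 0).1 = H.nu (u 0).2 := fun u hu =>
    have h1 := wg_pos hp.nonneg Z (((tup_pos_iff hw _ _ u).1 hu).1 0)
    ⟨h1.2.2.2, h1.2.2.1⟩
  have a0 := MI_symm hP (fun u : Fin (N + 1) → Z.Ω × H.Ω => Z.y (u 0).1)
    (fun u => (H.b (u 0).2, fun j => H.T' (u j).2)) (fun u => wE Z (u 0).1)
  have a1 : CH (tup (wg Z) H.KK N) (fun u => (H.b (u 0).2, fun j => H.T' (u j).2))
      (fun u => wE Z (u 0).1) ≤ CH (tup (wg Z) H.KK N) (fun u j => H.T' (u j).2)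
      (fun u => wE Z (u 0).1) := by
    refine CH_mono_left hP fun u u' hu hu' h => ?_
    have e := Prod.ext_iff.1 h
    have e1 : wE Z (u 0).1 = wE Z (u' 0).1 := e.2
    have e2 : Z.b (u 0).1 = Z.b (u' 0).1 := (Prod.ext_iff.1 e1).2
    refine Prod.ext ?_ e.1
    show H.b (u 0).2 = H.b (u' 0).2
    rw [← (hsup u hu).1, ← (hsup u' hu').1, e2]
  have a2 : CH (tup (wg Z) H.KK N) (fun u j => H.T' (u j).2) (fun u => wE Z (u 0).1) ≤
      CH (tup (wg Z) H.KK N) (fun u j => H.T' (u j).2) (fun u => (H.KK (u 0)).2.2.2) := by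
    refine CH_mono_cond hP fun u u' hu hu' h => ?_
    have e1 : wE Z (u 0).1 = wE Z (u' 0).1 := h
    have e2 : Z.b (u 0).1 = Z.b (u' 0).1 := (Prod.ext_iff.1 e1).2
    show H.b (u 0).2 = H.b (u' 0).2
    rw [← (hsup u hu).1, ← (hsup u' hu').1, e2]
  have a3 := tup_CH_le hw H.KK (fun w => H.T' w.2) (fun z => z.2.2.2) N
  have a4 : CH (wg Z) (fun w => H.T' w.2) (fun w => (H.KK w).2.2.2) = CH H.p H.th H.b := by
    refine (wg_snd' H Z hp H.T' H.b).trans ?_
    refine CH_congr hp.nonneg ?_ ?_ (fun _ _ _ _ h => h) (fun _ _ _ _ h => h) <;>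
    · intro w w' _ _ h
      simp only [T'_iff, Prod.mk.injEq] at h ⊢
      exact h.1
  rw [a4] at a3
  have b1 : CH (tup (wg Z) H.KK N) (fun u j => H.T' (u j).2) (fun u => H.KK (u 0)) ≤
      CH (tup (wg Z) H.KK N) (fun u => (H.b (u 0).2, fun j => H.T' (u j).2))
        (fun u => (Z.y (u 0).1, wE Z (u 0).1)) := by
    have c1 : CH (tup (wg Z) H.KK N) (fun u j => H.T' (u j).2) (fun u => H.KK (u 0)) ≤
        CH (tup (wg Z) H.KK N) (fun u j => H.T' (u j).2)
          (fun u => (Z.y (u 0).1, wE Z (u 0).1)) := by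
      refine CH_mono_cond hP fun u u' hu hu' h => ?_
      have e1 : (u 0).1 = (u' 0).1 := (Prod.ext_iff.1 h).1
      show (Z.y (u 0).1, wE Z (u 0).1) = (Z.y (u' 0).1, wE Z (u' 0).1)
      rw [e1]
    refine c1.trans (CH_mono_left hP fun u u' hu hu' h => ?_)
    exact (Prod.ext_iff.1 (Prod.ext_iff.1 h).1).2
  have b2 : CH (tup (wg Z) H.KK N) (fun u j => H.T' (u j).2) (fun u => H.KK (u 0)) =
      (N + 1) * CH H.p H.th H.line := by
    rw [tup_CH hw H.KK (fun w => H.T' w.2) N]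
    congr 1
    rw [← time_line H Z hp]
    refine CH_congr hw ?_ ?_ (fun _ _ _ _ h => h) (fun _ _ _ _ h => h) <;>
    · intro w w' _ _ h
      simp only [T'_iff, Prod.mk.injEq] at h ⊢
      exact h.1
  unfold Pool.POT.MI at a0
  have b3 : ((N : ℝ) + 1) * (CH H.p H.th H.b - CH H.p H.th H.line) ≤ (N + 1) * d :=
    mul_le_mul_of_nonneg_left h0 (by positivity)
  linarith

/-- At a world with a graph, `nu` is full in the body of the times. -/
theorem good_DF {C η ka ε0 C1 : ℝ} {m X : ℕ} (hka : 0 < ka) (hC1 : 1 ≤ C1)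
    (hFull : ∀ (D : QD c k), D.Ok X C ((2 : ℝ) ^ (-(ka * X))) →
      ∀ (Ω : Type) (_ : Fintype Ω) (p : Ω → ℝ) (R : Ω → Fin c → ℤ), IsLaw p →
        Pool.QC.Absb p R D.A (ε0 * X) →
      ∀ δ : Fin c → Fin c → ℝ,
        (∀ b, (∃ w, D.Cand X m (((2 : ℝ) ^ (-(ka * X))) ^ C1) 0 w (δ b)) ∨
          ∃ i, δ b = Pi.single i ((2 : ℝ) ^ X)⁻¹) →
        (mat δ).det ≠ 0 → (∀ i j, |((mat δ)⁻¹) i j| ≤ 2 ^ X) →
        Pool.CLO.Ph p (fun ω i => (R ω i : ℝ) / 2 ^ X) (mat δ) ≤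
          Pool.CLO.Ph p (fun ω i => (R ω i : ℝ) / 2 ^ X)
            (((2 : ℝ) ^ X)⁻¹ • (1 : Matrix (Fin c) (Fin c) ℝ)) + η * X)
    {e : Z.Ω} (he : 0 < Z.p e) (t : Fin 3 → Set.range H.th)
    (hg : H.GQ Z ε0 C ((2 : ℝ) ^ (-(ka * X))) X (wE Z e) t) :
    DF (rw' Z (wE Z e)) (fun _ => Tx c X) (fun _ => bd X H.tau H.E (t 0).1 (t 1).1 (t 2).1)
      (fun ω => xv X (Z.y ω)) (fun _ => ()) ≤ η * X := by
  obtain ⟨D, hD, hA, s, hs, -, hq⟩ := hg
  have hr := rw_law Z he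
  have hq1 : ((2 : ℝ) ^ (-(ka * X))) ^ C1 ≤ D.cnV s := by
    refine le_trans ?_ hq
    have h4 : (2 : ℝ) ^ (-(ka * X)) ≤ 1 := by
      apply Real.rpow_le_one_of_one_le_of_nonpos (by norm_num)
      have : 0 ≤ ka * X := by positivity
      linarith
    have h5 : (0 : ℝ) < (2 : ℝ) ^ (-(ka * X)) := by positivity
    calc ((2 : ℝ) ^ (-(ka * X))) ^ C1 ≤ ((2 : ℝ) ^ (-(ka * X))) ^ (1 : ℝ) :=
          Real.rpow_le_rpow_of_exponent_ge h5 h4 hC1
      _ = _ := Real.rpow_one _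
  have h1 := hFull D hD Z.Ω Z.inst (rw' Z (wE Z e)) Z.y hr hA
    (fun b => fm3 X H.tau H.E (t 0).1 (t 1).1 (t 2).1 (bf X H.tau H.E (t 0).1 (t 1).1 (t 2).1 b))
    (fun b => bd_cand D hD H.tau H.E (t 0).1 (t 1).1 (t 2).1 s (by
      intro j
      fin_cases j
      · exact hs 0
      · exact hs 1
      · exact hs 2) hq1 b)
    (bd_det X H.tau H.E _ _ _) (bd_inv X H.tau H.E _ _ _)
  have h2 := Pool.CLO.DF_le_Ph hr (fun ω => xv X (Z.y ω)) (Tx c X)
    (bd X H.tau H.E (t 0).1 (t 1).1 (t 2).1)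
  have hT : (((2 : ℝ) ^ X)⁻¹ • (1 : Matrix (Fin c) (Fin c) ℝ)) = Tx c X := by
    unfold Tx
    rw [← Matrix.diagonal_one, ← Matrix.diagonal_smul]
    congr 1
    funext i
    simp
  rw [hT] at h1
  change Pool.CLO.Ph (rw' Z (wE Z e)) (fun ω => xv X (Z.y ω))
    (bd X H.tau H.E (t 0).1 (t 1).1 (t 2).1) ≤
    Pool.CLO.Ph (rw' Z (wE Z e)) (fun ω => xv X (Z.y ω)) (Tx c X) + η * X at h1
  linarith

end world

/-- **BODY when `nu` is almost independent of `v`.** -/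
theorem bodyR (c k : ℕ) {C η : ℝ} (hC : 1 ≤ C) (hη : 0 < η) : ∃ (io : ℝ) (X0 : ℕ), 0 < io ∧
    ∀ (H : QH c k) (X : ℕ), X0 ≤ X → H.Ok1 X C (io * X) →
    DF (tup H.p H.line 2) (fun _ => Tx c X)
      (fun w => bd X H.tau H.E (H.th (w 0)) (H.th (w 1)) (H.th (w 2)))
      (fun w => xv X (H.nu (w 0)))
      (fun w => (H.b (w 0), (H.th (w 0), (H.th (w 1), H.th (w 2))))) ≤ η * X := by
  classical
  have hc0 : (0 : ℝ) ≤ c := Nat.cast_nonneg c
  have hl2 : 0 < Real.log 2 := Real.log_pos (by norm_num)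
  have hl3 : Real.log 2 < (0.6931471808 : ℝ) := Real.log_two_lt_d9
  obtain ⟨z, hz⟩ : ∃ z : ℝ, z = η / (8 * (c + 1)) := ⟨_, rfl⟩
  have hz0 : 0 < z := by rw [hz]; positivity
  have hcz : c * z ≤ η / 8 := by
    rw [hz, mul_div_assoc', div_le_div_iff₀ (by positivity) (by norm_num)]
    nlinarith
  obtain ⟨N, hN⟩ := exists_nat_ge (((c : ℝ) + 1) / z)
  rw [div_le_iff₀ hz0] at hN
  obtain ⟨η1, hη1⟩ : ∃ η1 : ℝ, η1 = η / (8 * (N + 1)) := ⟨_, rfl⟩
  have hη10 : 0 < η1 := by rw [hη1]; positivity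
  have hNη : N * η1 ≤ η / 8 := by
    rw [hη1, mul_div_assoc', div_le_div_iff₀ (by positivity) (by norm_num)]
    nlinarith
  obtain ⟨m, ka, ε0, C1, X1, hka, hε0, hC1, hFull⟩ := full_stmt c k C η1 hC hη10
  obtain ⟨ε, hε⟩ : ∃ ε : ℝ, ε = min 1 (η / (8 * (c + 1))) := ⟨_, rfl⟩
  have hε0' : 0 < ε := by rw [hε]; positivity
  have hε1 : ε ≤ 1 := by rw [hε]; exact min_le_left _ _
  have hcε : ε * c ≤ η / 8 := by
    have h1 : ε ≤ η / (8 * (c + 1)) := by rw [hε]; exact min_le_right _ _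
    calc ε * c ≤ η / (8 * (c + 1)) * c := mul_le_mul_of_nonneg_right h1 hc0
      _ ≤ η / 8 := by
        rw [div_mul_eq_mul_div, div_le_div_iff₀ (by positivity) (by norm_num)]
        nlinarith
  obtain ⟨io, X2, hio, hStar⟩ := star1 c k hC 2 hka hε0 hε0'
  -- the constants
  obtain ⟨Kc, hKc⟩ : ∃ Kc : ℝ, Kc = N * |Csb c| + (Cc c c + c * Real.log 5) +
    (|Lb c (4 * C)| + Cc c ((c : ℝ) + 1)) := ⟨_, rfl⟩
  obtain ⟨X3, hX3⟩ := exists_nat_ge (|Lb c (4 * C)| + 1)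
  obtain ⟨X4, hX4⟩ := exists_nat_ge (Kc / (η / 8))
  refine ⟨min io (η / 24), max (max X1 X2) (max X3 X4), by positivity, fun H X hX ok => ?_⟩
  have l1 : X1 ≤ X := (le_max_left _ _).trans ((le_max_left _ _).trans hX)
  have l2 : X2 ≤ X := (le_max_right _ _).trans ((le_max_left _ _).trans hX)
  have l3 : (X3 : ℝ) ≤ X := by
    exact_mod_cast (le_max_left _ _).trans ((le_max_right _ _).trans hX)
  have l4 : (X4 : ℝ) ≤ X := by
    exact_mod_cast (le_max_right _ _).trans ((le_max_right _ _).trans hX)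
  have hXR : (0 : ℝ) ≤ X := Nat.cast_nonneg X
  have hio1 : min io (η / 24) * X ≤ io * X := mul_le_mul_of_nonneg_right (min_le_left _ _) hXR
  have hio2 : min io (η / 24) * X ≤ η / 24 * X :=
    mul_le_mul_of_nonneg_right (min_le_right _ _) hXR
  have hp := ok.law
  obtain ⟨Z, hZ⟩ := hStar H X l2 (Ok1_mono ok hio1)
  have hw := wg_nn hp.nonneg Z
  have hP : IsLaw (tup (wg Z) H.KK 2) := tup_isLaw (wg_law H Z hp) _ _
  have hlaw : ∀ u, 0 < tup (wg Z) H.KK 2 u → 0 < Z.p (u 0).1 ∧ Z.b (u 0).1 = H.b (u 0).2 ∧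
      Z.y (u 0).1 = H.nu (u 0).2 := fun u hu =>
    have h1 := wg_pos hp.nonneg Z (((tup_pos_iff hw _ _ u).1 hu).1 0)
    ⟨h1.1, h1.2.2.2, h1.2.2.1⟩
  -- the numbers
  have hLb : Lb c (4 * C) + c * (X * Real.log 2) < (N + 1) * (z * X) := by
    have e1 : Lb c (4 * C) < X := by
      have := le_abs_self (Lb c (4 * C))
      linarith
    have e2 : (c : ℝ) * (X * Real.log 2) ≤ c * X := by
      refine mul_le_mul_of_nonneg_left ?_ hc0
      nlinarith
    have e3 : ((c : ℝ) + 1) * X ≤ N * z * X := mul_le_mul_of_nonneg_right hN hXR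
    have e4 : 0 ≤ z * X := by positivity
    nlinarith
  have key := body_w hP X (fun u : Fin 3 → Z.Ω × H.Ω => Z.y (u 0).1)
    (x := fun u => xv X (Z.y (u 0).1)) (fun u u' _ _ h => by
      simp only at h ⊢
      rw [h]) (fun u => wE Z (u 0).1)
    (fun u => (H.b (u 0).2, fun j : Fin 3 => H.T' (u j).2))
    (A := fun t : H.B × (Fin 3 → Set.range H.th) => bd X H.tau H.E (t.2 0).1 (t.2 1).1 (t.2 2).1)
    (K1 := 4 * C) (by linarith) (fun t => bd_det X H.tau H.E _ _ _)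
    (fun t => bd_entry X H.tau H.E hC ok.E_b _ _ _) (fun t => bd_inv X H.tau H.E _ _ _)
    (Good := fun e t => H.GQ Z ε0 C ((2 : ℝ) ^ (-(ka * X))) X e t.2)
    (E0 := η1 * X) (E2 := 3 * (min io (η / 24) * X)) (Y := z * X) (by positivity) (by positivity)
    hLb (fun u hu t' hg => by
      rw [world_DF H Z hp 2 X]
      exact good_DF H Z hka hC1 (hFull · X l1) (hlaw u hu).1 t'.2 hg)
    (by
      have := time_info H Z hp 2 ok.h0
      refine this.trans (le_of_eq ?_)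
      push_cast
      ring)
  rw [Pb_eq] at key
  -- from the star to the line
  have hd1 := DF_drop hP.nonneg (fun _ => Tx c X)
    (fun u : Fin 3 → Z.Ω × H.Ω => bd X H.tau H.E (H.T' (u 0).2).1 (H.T' (u 1).2).1
      (H.T' (u 2).2).1) (fun u => xv X (Z.y (u 0).1))
    (Z := fun u => ((H.b (u 0).2, fun j : Fin 3 => H.T' (u j).2), wE Z (u 0).1))
    (Z' := fun u => (H.b (u 0).2, (H.th (u 0).2, (H.th (u 1).2, H.th (u 2).2)))) (by
      intro u u' _ _ h
      have e1 := (Prod.ext_iff.1 (Prod.ext_iff.1 h).1)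
      have e2 : ∀ j, H.th (u j).2 = H.th (u' j).2 := fun j =>
        (T'_iff H _ _).1 (congrFun e1.2 j)
      have e3 : H.b (u 0).2 = H.b (u' 0).2 := e1.1
      simp only [e2, e3])
  have hwl : H.wl (rk Z) = wg Z := by
    funext w
    exact wg_eq hp.nonneg Z H.v w
  have him : Marg (tup (wg Z) H.KK 2) (tup H.p H.line 2) (fun v j => (v j).2) := by
    rw [← hwl]
    exact wl_marg H (rk_one hp Z) 2
  have hd2 := DF_image (q := tup (wg Z) H.KK 2) (p := tup H.p H.line 2)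
    (f := fun v j => (v j).2) him X
    (fun w => bd X H.tau H.E (H.th (w 0)) (H.th (w 1)) (H.th (w 2))) (fun w => H.nu (w 0))
    (fun w => (H.b (w 0), (H.th (w 0), (H.th (w 1), H.th (w 2)))))
  rw [← hd2]
  have hd3 : DF (tup (wg Z) H.KK 2) (fun _ => Tx c X)
      (fun u => bd X H.tau H.E (H.th (u 0).2) (H.th (u 1).2) (H.th (u 2).2))
      (fun u => xv X (H.nu (u 0).2))
      (fun u => (H.b (u 0).2, (H.th (u 0).2, (H.th (u 1).2, H.th (u 2).2)))) =
      DF (tup (wg Z) H.KK 2) (fun _ => Tx c X)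
      (fun u => bd X H.tau H.E (H.T' (u 0).2).1 (H.T' (u 1).2).1 (H.T' (u 2).2).1)
      (fun u => xv X (Z.y (u 0).1))
      (fun u => (H.b (u 0).2, (H.th (u 0).2, (H.th (u 1).2, H.th (u 2).2)))) := by
    rw [DF_xv, DF_xv]
    congr 1
    refine CH_supp hP.nonneg (fun u hu => (hlaw u hu).2.2.symm) (fun u hu => ?_)
    rw [(hlaw u hu).2.2]
    rfl
  rw [hd3]
  refine hd1.trans (key.trans ?_)
  -- the bound
  have q1 : (N : ℝ) * (η1 * X + |Csb c|) ≤ η / 8 * X + N * |Csb c| := by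
    have := mul_le_mul_of_nonneg_right hNη hXR
    nlinarith
  have q2 : 3 * (min io (η / 24) * X) ≤ η / 8 * X := by linarith
  have q3 : c * (z * X) ≤ η / 8 * X := by
    have := mul_le_mul_of_nonneg_right hcz hXR
    linarith
  have q4 : Ex (tup (wg Z) H.KK 2) (fun u => ind (¬ H.GQ Z ε0 C ((2 : ℝ) ^ (-(ka * X))) X
      (wE Z (u 0).1) (fun j => H.T' (u j).2))) *
      (Lb c (4 * C) + c * (X * Real.log 2) + Cc c ((c : ℝ) + 1)) ≤
      η / 8 * X + (|Lb c (4 * C)| + Cc c ((c : ℝ) + 1)) := by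
    have c1 := Cc_nonneg (c := c) (a := (c : ℝ) + 1) (by linarith)
    have c2 := le_abs_self (Lb c (4 * C))
    have c3 : 0 ≤ Ex (tup (wg Z) H.KK 2) (fun u => ind (¬ H.GQ Z ε0 C ((2 : ℝ) ^ (-(ka * X))) X
      (wE Z (u 0).1) (fun j => H.T' (u j).2))) := Ex_nonneg hP.nonneg fun _ _ => ind_nonneg _
    have c4 : (c : ℝ) * (X * Real.log 2) ≤ c * X := by
      refine mul_le_mul_of_nonneg_left ?_ hc0
      nlinarith
    have c5 : 0 ≤ (c : ℝ) * X := by positivity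
    calc _ ≤ Ex (tup (wg Z) H.KK 2) (fun u => ind (¬ H.GQ Z ε0 C ((2 : ℝ) ^ (-(ka * X))) X
          (wE Z (u 0).1) (fun j => H.T' (u j).2))) *
          (|Lb c (4 * C)| + c * X + Cc c ((c : ℝ) + 1)) :=
          mul_le_mul_of_nonneg_left (by linarith) c3
      _ ≤ ε * (|Lb c (4 * C)| + c * X + Cc c ((c : ℝ) + 1)) :=
          mul_le_mul_of_nonneg_right hZ (by
            have := abs_nonneg (Lb c (4 * C))
            linarith)
      _ ≤ _ := by
          have d1 := abs_nonneg (Lb c (4 * C))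
          have d2 := mul_le_mul_of_nonneg_right hcε hXR
          have d3 : ε * (|Lb c (4 * C)| + Cc c ((c : ℝ) + 1)) ≤
              1 * (|Lb c (4 * C)| + Cc c ((c : ℝ) + 1)) :=
            mul_le_mul_of_nonneg_right hε1 (by linarith)
          nlinarith
  have q5 : Kc ≤ η / 8 * X := by
    have := hX4.trans l4
    rw [div_le_iff₀ (by positivity)] at this
    linarith
  rw [hKc] at q5
  have q6 : 0 ≤ η * X := by positivity
  linarith

end Pool.QT64
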