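import Pool.Agent.H89.POT.Jn
import Pool.Agent.H21.POT.Trs

/-!
# Change of charts for data (K_POT)

`DF_chart`: the deficit of the body `M A` for the heights `M n + k`. `nb`: a body put back into the
class of the bodies with entries at most `C` which contain the small cell.
-/

set_option autoImplicit false

namespace Pool.POT64

open Finset Real Matrix
open Pool.Agent.H49.Ent Pool.Agent.H32.Dense Pool.STK Pool.FAD Pool.POT Pool.POT89
open Pool.QC (mat)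

variable {c : ℕ} {Ω ζ : Type} [Fintype Ω] {p : Ω → ℝ}

/-- The cost of a change of the chart. -/
noncomputable def Cch (c : ℕ) (L R : ℝ) : ℝ :=
  c * Real.log (2 * (c * c * (L * R) + 2) + 1) + c * Real.log (2 * (c * (L * R)) + 1)

theorem mulVec_le {A : Matrix (Fin c) (Fin c) ℝ} {x : Fin c → ℝ} {a b : ℝ} (ha : 0 ≤ a)
    (hA : ∀ i j, |A i j| ≤ a) (hx : ∀ j, |x j| ≤ b) (i : Fin c) : |(A *ᵥ x) i| ≤ c * (a * b) := by
  unfold Matrix.mulVec dotProduct
  refine (Finset.abs_sum_le_sum_abs _ _).trans ?_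
  calc ∑ j, |A i j * x j| ≤ ∑ _j : Fin c, a * b := by
        refine Finset.sum_le_sum fun j _ => ?_
        rw [abs_mul]
        exact mul_le_mul (hA i j) (hx j) (abs_nonneg _) ha
    _ = c * (a * b) := by simp

/-- **Change of the chart.** -/
theorem DF_chart (hp : IsLaw p) (X : ℕ) {A M : Ω → Matrix (Fin c) (Fin c) ℝ}
    {n n' : Ω → Fin c → ℤ} {Z : Ω → ζ} {L R : ℝ} (hL : 0 ≤ L) (hdA : Det p Z A)
    (hdM : Det p Z M) (hi : ∀ ω i j, |(A ω)⁻¹ i j| ≤ 2 ^ X)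
    (hM : ∀ ω, |(M ω).det| = 1) (hMi : ∀ ω i j, |(M ω)⁻¹ i j| ≤ L)
    (hn : ∀ ω ω', 0 < p ω → 0 < p ω' → Z ω = Z ω' → ∀ i, |((n' ω i : ℝ) - n' ω' i) -
      ∑ j, M ω i j * ((n ω j : ℝ) - n ω' j)| ≤ R) :
    DF p (fun _ => Tx c X) (fun ω => M ω * A ω) (fun ω => xv X (n' ω)) Z ≤
      DF p (fun _ => Tx c X) A (fun ω => xv X (n ω)) Z + Cch c L R := by
  have h0 := hp.nonneg
  have hX : (0 : ℝ) < 2 ^ X := by positivity
  have hMd : ∀ ω, (M ω).det ≠ 0 := fun ω h => by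
    have := hM ω
    rw [h, abs_zero] at this
    exact one_ne_zero this.symm
  rw [DF_xv, DF_xv]
  obtain ⟨Y, hY⟩ : ∃ Y : Ω → Fin c → ℤ, Y = fun ω => cl (A ω) (xv X (n ω)) := ⟨_, rfl⟩
  obtain ⟨Y', hY'⟩ : ∃ Y' : Ω → Fin c → ℤ, Y' = fun ω => cl (M ω * A ω) (xv X (n' ω)) := ⟨_, rfl⟩
  -- the difference of the heights
  have hd : ∀ ω ω', 0 < p ω → 0 < p ω' → Z ω = Z ω' → ∀ i,
      |(((n ω i : ℝ) - n ω' i) - ((M ω)⁻¹ *ᵥ fun j => ((n' ω j : ℝ) - n' ω' j)) i)| ≤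
        c * (L * R) := by
    intro ω ω' a b h i
    have e1 : ((n ω i : ℝ) - n ω' i) - ((M ω)⁻¹ *ᵥ fun j => ((n' ω j : ℝ) - n' ω' j)) i =
        -((M ω)⁻¹ *ᵥ fun j => (((n' ω j : ℝ) - n' ω' j) -
          ∑ k, M ω j k * ((n ω k : ℝ) - n ω' k))) i := by
      have e2 : (fun j => (((n' ω j : ℝ) - n' ω' j) - ∑ k, M ω j k * ((n ω k : ℝ) - n ω' k))) =
          (fun j => ((n' ω j : ℝ) - n' ω' j)) - M ω *ᵥ fun k => ((n ω k : ℝ) - n ω' k) := by
        funext j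
        rfl
      rw [e2, Matrix.mulVec_sub, Matrix.mulVec_mulVec,
        Matrix.nonsing_inv_mul _ (isUnit_iff_ne_zero.2 (hMd ω)), Matrix.one_mulVec, Pi.sub_apply]
      ring
    rw [e1, abs_neg]
    exact mulVec_le hL (hMi ω) (fun j => hn ω ω' a b h j) i
  -- the cells
  have hcell : ∀ ω ω', 0 < p ω → 0 < p ω' → Z ω = Z ω' → Y ω = Y ω' → ∀ i,
      |((Y' ω i - Y' ω' i : ℤ) : ℝ)| ≤ c * c * (L * R) + 2 := by
    intro ω ω' a b h hy i
    have hAe : A ω = A ω' := hdA ω ω' a b h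
    have hMe : M ω = M ω' := hdM ω ω' a b h
    have e1 : ((M ω * A ω)⁻¹ *ᵥ xv X (n' ω)) i - ((M ω' * A ω')⁻¹ *ᵥ xv X (n' ω')) i =
        ((A ω)⁻¹ *ᵥ fun j => ((M ω)⁻¹ *ᵥ fun j => ((n' ω j : ℝ) - n' ω' j)) j / 2 ^ X) i := by
      rw [← hAe, ← hMe, Matrix.mul_inv_rev, ← Matrix.mulVec_mulVec, ← Matrix.mulVec_mulVec,
        ← Pi.sub_apply, ← Matrix.mulVec_sub, ← Matrix.mulVec_sub]
      congr 2
      have e2 : xv X (n' ω) - xv X (n' ω') = ((2 : ℝ) ^ X)⁻¹ • fun j => ((n' ω j : ℝ) - n' ω' j) := by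
        funext j
        simp only [Pi.sub_apply, xv, Pi.smul_apply, smul_eq_mul]
        ring
      rw [e2, Matrix.mulVec_smul]
      funext j
      rw [Pi.smul_apply, smul_eq_mul]
      ring
    have e3 : ((A ω)⁻¹ *ᵥ xv X (n ω)) i - ((A ω')⁻¹ *ᵥ xv X (n ω')) i =
        ((A ω)⁻¹ *ᵥ fun j => ((n ω j : ℝ) - n ω' j) / 2 ^ X) i := by
      rw [← hAe, ← Pi.sub_apply, ← Matrix.mulVec_sub]
      congr 2
      funext j
      simp only [Pi.sub_apply, xv]
      ring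
    have e4 : |((A ω)⁻¹ *ᵥ xv X (n ω)) i - ((A ω')⁻¹ *ᵥ xv X (n ω')) i| ≤ 1 := by
      have k1 : Y ω i = Y ω' i := congrFun hy i
      rw [hY] at k1
      exact abs_sub_of_floor k1
    have e5 : |(((A ω)⁻¹ *ᵥ fun j => ((n ω j : ℝ) - n ω' j) / 2 ^ X) i -
        ((A ω)⁻¹ *ᵥ fun j => ((M ω)⁻¹ *ᵥ fun j => ((n' ω j : ℝ) - n' ω' j)) j / 2 ^ X) i)| ≤
        c * c * (L * R) := by
      rw [← Pi.sub_apply, ← Matrix.mulVec_sub]
      have k1 := mulVec_le (A := (A ω)⁻¹) (x := (fun j => ((n ω j : ℝ) - n ω' j) / 2 ^ X) -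
        fun j => ((M ω)⁻¹ *ᵥ fun j => ((n' ω j : ℝ) - n' ω' j)) j / 2 ^ X) (a := 2 ^ X)
        (b := c * (L * R) / 2 ^ X) hX.le (hi ω) (by
          intro j
          rw [Pi.sub_apply, ← sub_div, abs_div, abs_of_pos hX]
          exact div_le_div_of_nonneg_right (hd ω ω' a b h j) hX.le) i
      refine k1.trans (le_of_eq ?_)
      field_simp
    have e6 : |((M ω * A ω)⁻¹ *ᵥ xv X (n' ω)) i - ((M ω' * A ω')⁻¹ *ᵥ xv X (n' ω')) i| ≤
        c * c * (L * R) + 1 := by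
      rw [e3] at e4
      rw [e1]
      rw [abs_le] at e4 e5 ⊢
      constructor <;> linarith [e4.1, e4.2, e5.1, e5.2]
    have e7 : |((Y' ω i - Y' ω' i : ℤ) : ℝ)| ≤ (c * c * (L * R) + 1) + 1 := by
      rw [hY']
      exact floor_sub_le e6
    linarith
  -- the entropies
  have c1 : CH p n (fun ω => (Y ω, Z ω)) ≤ CH p Y' (fun ω => (Y ω, Z ω)) +
      CH p n (fun ω => (Y' ω, Z ω)) := by
    have d1 : CH p n (fun ω => (Y ω, Z ω)) ≤ CH p (fun ω => (n ω, Y' ω)) (fun ω => (Y ω, Z ω)) :=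
      CH_mono_left h0 fun _ _ _ _ h => (Prod.ext_iff.1 (Prod.ext_iff.1 h).1).1
    have d2 := CH_chain h0 n Y' (fun ω => (Y ω, Z ω))
    have d3 : CH p n (fun ω => (Y' ω, (Y ω, Z ω))) ≤ CH p n (fun ω => (Y' ω, Z ω)) := by
      refine CH_mono_cond h0 fun ω ω' _ _ h => ?_
      simp only [Prod.mk.injEq] at h ⊢
      exact ⟨h.1, h.2.2⟩
    linarith
  have c2 : CH p n (fun ω => (Y' ω, Z ω)) ≤ CH p n' (fun ω => (Y' ω, Z ω)) +
      c * Real.log (2 * (c * (L * R)) + 1) := by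
    have d1 : CH p n (fun ω => (Y' ω, Z ω)) ≤
        CH p (fun ω => (n ω, n' ω)) (fun ω => (Y' ω, Z ω)) :=
      CH_mono_left h0 fun _ _ _ _ h => (Prod.ext_iff.1 (Prod.ext_iff.1 h).1).1
    have d2 := CH_chain h0 n n' (fun ω => (Y' ω, Z ω))
    have d3 := CH_le_vec h0 hp.sum_one n (fun ω => (n' ω, (Y' ω, Z ω))) (fun _ => c * (L * R)) (by
      intro ω ω' a b h i
      have h1 : n' ω = n' ω' := (Prod.ext_iff.1 h).1
      have h2 : Z ω = Z ω' := (Prod.ext_iff.1 (Prod.ext_iff.1 h).2).2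
      have g1 := hd ω ω' a b h2 i
      have g2 : (fun j => ((n' ω j : ℝ) - n' ω' j)) = 0 := by
        funext j
        rw [h1]
        simp
      rw [g2, Matrix.mulVec_zero] at g1
      push_cast
      simpa using g1)
    rw [Ex_const hp.sum_one] at d3
    linarith
  have c3 : CH p Y' (fun ω => (Y ω, Z ω)) ≤ c * Real.log (2 * (c * c * (L * R) + 2) + 1) := by
    have d3 := CH_le_vec h0 hp.sum_one Y' (fun ω => (Y ω, Z ω)) (fun _ => c * c * (L * R) + 2) (by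
      intro ω ω' a b h i
      exact hcell ω ω' a b (Prod.ext_iff.1 h).2 (Prod.ext_iff.1 h).1 i)
    rwa [Ex_const hp.sum_one] at d3
  have c4 : Ex p (fun ω => lv (M ω * A ω) - lv (Tx c X)) =
      Ex p (fun ω => lv (A ω) - lv (Tx c X)) := by
    congr 1
    funext ω
    unfold lv
    rw [Matrix.det_mul, abs_mul, hM ω, one_mul]
  rw [c4]
  rw [hY] at c1 c3
  rw [hY'] at c1 c2 c3
  unfold Cch
  simp only at c1 c2 c3 ⊢
  linarith

/-! ### Normalisation -/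

/-- The body, divided by `K`, with the small cell added. -/
noncomputable def nb (X : ℕ) (K : ℝ) (B : Matrix (Fin c) (Fin c) ℝ) : Matrix (Fin c) (Fin c) ℝ :=
  sb X (K⁻¹ • B) (Tx c X)

theorem nb_det (X : ℕ) (K : ℝ) (B : Matrix (Fin c) (Fin c) ℝ) : (nb X K B).det ≠ 0 := sb_det _ _ _

theorem nb_inv (X : ℕ) (K : ℝ) (B : Matrix (Fin c) (Fin c) ℝ) (i j : Fin c) :
    |(nb X K B)⁻¹ i j| ≤ 2 ^ X := sb_inv _ _ _ i j

theorem nb_entry (X : ℕ) {K C : ℝ} (hK : 0 < K) (hC : 1 ≤ C) {B : Matrix (Fin c) (Fin c) ℝ}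
    (h : ∀ i j, |B i j| ≤ K * C) (i j : Fin c) : |nb X K B i j| ≤ C := by
  refine sb_entry X hC (fun i j => ?_) (Tx_entry hC X) i j
  rw [Matrix.smul_apply, smul_eq_mul, abs_mul, abs_of_pos (inv_pos.2 hK), inv_mul_le_iff₀ hK]
  exact h i j

/-- The body lies in `K` times the normalised one. -/
theorem nb_cov (X : ℕ) {K : ℝ} (hK : 0 < K) (B : Matrix (Fin c) (Fin c) ℝ) (i j : Fin c) :
    |((nb X K B)⁻¹ * B) i j| ≤ K := by
  have h := sb_le X (K⁻¹ • B) (Tx c X) (.inl j) i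
  have e1 : ((sb X (K⁻¹ • B) (Tx c X))⁻¹ *ᵥ fm X (K⁻¹ • B) (Tx c X) (.inl j)) i =
      K⁻¹ * ((nb X K B)⁻¹ * B) i j := by
    have e2 : fm X (K⁻¹ • B) (Tx c X) (.inl j) = K⁻¹ • fun i => B i j := by
      funext i
      simp only [fm, Matrix.smul_apply, Pi.smul_apply]
    rw [e2, Matrix.mulVec_smul, Pi.smul_apply, smul_eq_mul]
    rfl
  rw [e1, abs_mul, abs_of_pos (inv_pos.2 hK), inv_mul_le_iff₀ hK, mul_one] at h
  exact h

/-- The cost of the normalisation. -/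
noncomputable def Cnb (c : ℕ) (K : ℝ) : ℝ := CF c (c * K + 1) c 2

theorem Inc_K {X : ℕ} {K : ℝ} {A : Matrix (Fin c) (Fin c) ℝ} (h : ∀ i j, |A⁻¹ i j| ≤ K * 2 ^ X) :
    Inc ((c : ℝ) * K + 1) (Tx c X) A := by
  intro i
  calc ∑ j, |(A⁻¹ * Tx c X) i j| ≤ ∑ _j : Fin c, K := by
        refine Finset.sum_le_sum fun j _ => ?_
        rw [Tx, Matrix.mul_diagonal, abs_mul,
          abs_of_pos (by positivity : (0 : ℝ) < ((2 : ℝ) ^ X)⁻¹), ← div_eq_mul_inv,
          div_le_iff₀ (by positivity)]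
        exact h i j
    _ = c * K := by simp
    _ ≤ (c : ℝ) * K + 1 := by linarith

/-- **The deficit of the normalised body.** -/
theorem nb_DF (hp : IsLaw p) (X : ℕ) {K : ℝ} (hK : 1 ≤ K) {B : Ω → Matrix (Fin c) (Fin c) ℝ}
    (x : Ω → Fin c → ℝ) (Z : Ω → ζ) (hd : Det p Z B) (hB : ∀ ω, (B ω).det ≠ 0)
    (hi : ∀ ω i j, |(B ω)⁻¹ i j| ≤ K * 2 ^ X) :
    DF p (fun _ => Tx c X) (fun ω => nb X K (B ω)) x Z ≤
      DF p (fun _ => Tx c X) B x Z + Cnb c K := by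
  have hK0 : 0 < K := by linarith
  have hc0 : (0 : ℝ) ≤ c := Nat.cast_nonneg c
  have hTT : Inc ((c : ℝ) * K + 1) (Tx c X) (Tx c X) := by
    refine Inc_K fun i j => (Tx_inv X i j).trans ?_
    exact le_mul_of_one_le_left (by positivity) hK
  have key := full_sum (n := c) hp.nonneg hp.sum_one (T := fun _ => Tx c X)
    (W := fun ω => nb X K (B ω)) (N := 2)
    (![B, fun _ => Tx c X, fun _ => Tx c X])
    (![fun ω => K⁻¹ • se (sf X (K⁻¹ • B ω) (Tx c X)) (fun b => .inl b),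
      fun ω => se (sf X (K⁻¹ • B ω) (Tx c X)) (fun b => .inr (.inl b)),
      fun ω => se (sf X (K⁻¹ • B ω) (Tx c X)) (fun b => .inr (.inr b))]) x Z
    (fun _ _ _ _ _ => rfl) (by
      intro ω ω' a b e
      simp only
      rw [hd ω ω' a b e])
    (by
      intro k
      fin_cases k
      · exact hd
      · exact fun _ _ _ _ _ => rfl
      · exact fun _ _ _ _ _ => rfl)
    (fun _ => Tx_det c X) (fun ω => nb_det X _ _) (by
      intro k
      fin_cases k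
      · exact hB
      · exact fun _ => Tx_det c X
      · exact fun _ => Tx_det c X)
    (c := (c : ℝ) * K + 1) (b := c) (by positivity) hc0 (by
      intro k
      fin_cases k
      · exact fun ω => Inc_K (hi ω)
      · exact fun _ => hTT
      · exact fun _ => hTT)
    (by
      intro ω
      rw [Fin.sum_univ_three]
      have e := sb_eq X (K⁻¹ • B ω) (Tx c X)
      show sb X (K⁻¹ • B ω) (Tx c X) = B ω * (K⁻¹ • se (sf X (K⁻¹ • B ω) (Tx c X))
        (fun b => .inl b)) + Tx c X * se (sf X (K⁻¹ • B ω) (Tx c X)) (fun b => .inr (.inl b)) +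
        Tx c X * se (sf X (K⁻¹ • B ω) (Tx c X)) (fun b => .inr (.inr b))
      rw [Matrix.mul_smul, ← Matrix.smul_mul]
      exact e)
    (by
      intro k
      fin_cases k
      · intro ω i
        refine le_trans ?_ (se_le (sf X (K⁻¹ • B ω) (Tx c X)) (fun b => .inl b) i)
        refine Finset.sum_le_sum fun j _ => ?_
        show |(K⁻¹ • se (sf X (K⁻¹ • B ω) (Tx c X)) (fun b => .inl b)) i j| ≤ _
        rw [Matrix.smul_apply, smul_eq_mul, abs_mul, abs_of_pos (inv_pos.2 hK0)]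
        exact mul_le_of_le_one_left (abs_nonneg _) (inv_le_one_of_one_le₀ hK)
      · exact fun ω i => se_le _ _ i
      · exact fun ω i => se_le _ _ i)
  rw [Fin.sum_univ_three] at key
  have e3 : DF p (fun _ => Tx c X) (fun _ => Tx c X) x Z = 0 := by
    unfold DF
    rw [CH_eq_zero hp.nonneg (X := fun ω => cl (Tx c X) (x ω))
      (W := fun ω => (cl (Tx c X) (x ω), Z ω)) (fun ω ω' _ _ e => (Prod.ext_iff.mp e).1)]
    simp [Ex]
  have e4 : DF p (fun _ => Tx c X) (![B, fun _ => Tx c X, fun _ => Tx c X] 0) x Z =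
      DF p (fun _ => Tx c X) B x Z := rfl
  have e5 : DF p (fun _ => Tx c X) (![B, fun _ => Tx c X, fun _ => Tx c X] 1) x Z =
      DF p (fun _ => Tx c X) (fun _ => Tx c X) x Z := rfl
  have e6 : DF p (fun _ => Tx c X) (![B, fun _ => Tx c X, fun _ => Tx c X] 2) x Z =
      DF p (fun _ => Tx c X) (fun _ => Tx c X) x Z := rfl
  rw [e4, e5, e6, e3] at key
  unfold Cnb
  linarith

theorem log_lin {a b K : ℝ} (ha : 0 < a) (hb : 0 ≤ b) (hK : 1 ≤ K) :
    Real.log (a + b * K) ≤ Real.log (a + b) + Real.log K := by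
  rw [← Real.log_mul (by positivity) (by positivity)]
  refine Real.log_le_log (by positivity) ?_
  nlinarith

/-- The cost of the normalisation grows like `log K`. -/
theorem Cnb_le (c : ℕ) {K : ℝ} (hK : 1 ≤ K) : Cnb c K ≤ Cnb c 1 + 4 * c * Real.log K := by
  have hc0 : (0 : ℝ) ≤ c := Nat.cast_nonneg c
  have key : ∀ j : ℕ, Cp c (((c : ℝ) + 1) ^ j * (c * K + 1)) ≤
      Cp c (((c : ℝ) + 1) ^ j * (c * 1 + 1)) + 2 * c * Real.log K := by
    intro j
    obtain ⟨u, hu⟩ : ∃ u : ℝ, u = ((c : ℝ) + 1) ^ j := ⟨_, rfl⟩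
    have hu0 : 0 < u := by
      rw [hu]
      positivity
    rw [← hu]
    have h1 := log_lin (a := 2 + 3 * (c * (c * u))) (b := 3 * (c * (c * (u * c)))) (by positivity)
      (by positivity) hK
    have h2 := log_lin (a := 2 * (u + 1) + 1) (b := 2 * (u * c)) (by positivity) (by positivity) hK
    unfold Cp Cc
    have e1 : 2 + 3 * ((c : ℝ) * (c * (u * (c * K + 1)))) =
        (2 + 3 * (c * (c * u))) + 3 * (c * (c * (u * c))) * K := by ring
    have e2 : 2 + 3 * ((c : ℝ) * (c * (u * (c * 1 + 1)))) =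
        (2 + 3 * (c * (c * u))) + 3 * (c * (c * (u * c))) := by ring
    have e3 : 2 * (u * ((c : ℝ) * K + 1) + 1) + 1 = (2 * (u + 1) + 1) + 2 * (u * c) * K := by ring
    have e4 : 2 * (u * ((c : ℝ) * 1 + 1) + 1) + 1 = (2 * (u + 1) + 1) + 2 * (u * c) := by ring
    rw [e1, e2, e3, e4]
    have h3 := mul_le_mul_of_nonneg_left h1 hc0
    have h4 := mul_le_mul_of_nonneg_left h2 hc0
    linarith
  unfold Cnb CF CS
  rw [Finset.sum_range_succ, Finset.sum_range_succ, Finset.sum_range_zero,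
    Finset.sum_range_succ, Finset.sum_range_succ, Finset.sum_range_zero]
  have k0 := key 0
  have k1 := key 1
  linarith

/-- The inverse of the product. -/
theorem mul_inv_bd {X : ℕ} {A M : Matrix (Fin c) (Fin c) ℝ} {L : ℝ}
    (hi : ∀ i j, |A⁻¹ i j| ≤ 2 ^ X) (hM : ∀ i j, |M⁻¹ i j| ≤ L) (i j : Fin c) :
    |(M * A)⁻¹ i j| ≤ c * L * 2 ^ X := by
  rw [Matrix.mul_inv_rev, Matrix.mul_apply]
  refine (Finset.abs_sum_le_sum_abs _ _).trans ?_
  calc ∑ k, |A⁻¹ i k * M⁻¹ k j| ≤ ∑ _k : Fin c, 2 ^ X * L := by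
        refine Finset.sum_le_sum fun k _ => ?_
        rw [abs_mul]
        exact mul_le_mul (hi i k) (hM k j) (abs_nonneg _) (by positivity)
    _ = c * L * 2 ^ X := by
      simp
      ring

theorem mul_entry {A M : Matrix (Fin c) (Fin c) ℝ} {L C : ℝ} (hL : 0 ≤ L)
    (hA : ∀ i j, |A i j| ≤ C) (hM : ∀ i j, |M i j| ≤ L) (i j : Fin c) :
    |(M * A) i j| ≤ c * L * C := by
  rw [Matrix.mul_apply]
  refine (Finset.abs_sum_le_sum_abs _ _).trans ?_
  calc ∑ k, |M i k * A k j| ≤ ∑ _k : Fin c, L * C := by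
        refine Finset.sum_le_sum fun k _ => ?_
        rw [abs_mul]
        exact mul_le_mul (hM i k) (hA k j) (abs_nonneg _) hL
    _ = c * L * C := by
      simp
      ring

end Pool.POT64
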